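import Pool.Agent.K1H11.NS3.UniqF

/-!
# Forced solutions near a given one are near its datum on a short time interval
-/

open MeasureTheory Set Filter Topology
open scoped ENNReal NNReal

namespace Pool.Agent.K1H11.NS

/-- Differences which are small in `L²((dl, ∞); ℓ¹)` are small for `t ≥ 2 dl`. -/
lemma late2F {c T : ℝ} {F : Fam} (hF : ∀ k t, t ≤ T → F k t = 0) (hc : 0 < c) {dl : ℝ} (hdl : 0 < dl) {ε : ℝ} (hε : 0 < ε) {a : Wt} (ha : Sup a)
    {V : K → C3} {w : Fam} (hw : SolF c F a V w) :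
    ∃ ε' : ℝ, 0 < ε' ∧ ∀ (a : Wt), Sup a → ∀ (V : K → C3) (u : Fam), SolF c F a V u →
      LNd dl (u - w) ≤ ENNReal.ofReal ε' → ∀ t, 2 * dl ≤ t → t ≤ T → An (u - w) t ≤ ε := by
  have hwd := hw.dom' ha
  obtain ⟨b, hb, hb'⟩ := hwd
  have hMw : ∀ s, An w s ≤ ∑' k, b k := fun s =>
    Summable.tsum_le_tsum (fun k => hb' k s) (hb.of_nonneg_of_le (fun _ => norm_nonneg _) fun k => hb' k s) hb
  have hwd : Dom w := ⟨b, hb, hb'⟩
  obtain ⟨hh, a1, a2, a3⟩ := exists_short hc (Mw := ∑' k, b k) (b := dl) ((An_nonneg w 0).trans (hMw 0)) hdl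
  set α := min (ε / 2) 1
  have hα : 0 < α := lt_min (by positivity) one_pos
  have hα1 : α ≤ 1 := min_le_right _ _
  have hα2 : α ≤ ε / 2 := min_le_left _ _
  have hsd : 0 < Real.sqrt hh := Real.sqrt_pos.2 a1
  refine ⟨α * Real.sqrt hh / 2, by positivity, fun a ha V u hu hL t ht htT => ?_⟩
  have hd : Dom u := hu.dom' ha
  have hdd := hd.sub hwd
  obtain ⟨t0, ht0, hA⟩ : ∃ t0 ∈ Ioo (t - hh) t, An (u - w) t0 ≤ α := by
    by_contra hcon
    push Not at hcon
    have h1 : ENNReal.ofReal (α * Real.sqrt hh) ≤ LNd dl (u - w) := by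
      unfold LNd LN
      have h2 : ENNReal.ofReal (α ^ 2 * hh) ≤
          ∫⁻ t in Ioi 0, ((Ioi dl).indicator (fun t => NW (Wa Wt.one) (at' (u - w) t)) t) ^ (2 : ℝ) := by
        calc ENNReal.ofReal (α ^ 2 * hh) = ∫⁻ t in Ioo (t - hh) t, ENNReal.ofReal (α ^ 2) := by
              rw [setLIntegral_const, Real.volume_Ioo, ← ENNReal.ofReal_mul (by positivity)]
              congr 1; ring
          _ ≤ ∫⁻ t in Ioo (t - hh) t,
              ((Ioi dl).indicator (fun t => NW (Wa Wt.one) (at' (u - w) t)) t) ^ (2 : ℝ) := by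
              refine setLIntegral_mono' measurableSet_Ioo fun s hs => ?_
              rw [indicator_of_mem (show s ∈ Ioi dl from by
                have := hs.1; simp only [mem_Ioi]; linarith), NW_Wa_zero]
              show _ ≤ (∑' k, ‖(u - w) k s‖ₑ) ^ (2 : ℝ)
              rw [An_eq hdd, ENNReal.rpow_two, ← ENNReal.ofReal_pow (An_nonneg _ s)]
              apply ENNReal.ofReal_le_ofReal
              exact pow_le_pow_left₀ hα.le (hcon s hs).le 2
          _ ≤ _ := lintegral_mono_set fun s hs => by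
              have := hs.1
              simp only [mem_Ioi]; linarith
      calc ENNReal.ofReal (α * Real.sqrt hh) = (ENNReal.ofReal (α ^ 2 * hh)) ^ (1 / 2 : ℝ) := by
            rw [ENNReal.ofReal_rpow_of_nonneg (by positivity) (by norm_num), ← Real.sqrt_eq_rpow,
              Real.sqrt_mul (by positivity), Real.sqrt_sq hα.le]
        _ ≤ _ := ENNReal.rpow_le_rpow h2 (by norm_num)
    have h3 := h1.trans hL
    rw [ENNReal.ofReal_le_ofReal_iff (by positivity)] at h3
    have : 0 < α * Real.sqrt hh := by positivity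
    linarith
  have := short hc hu.cf hd hw.cf hwd (hu.DS ha fun k s hs => hF k s (hs.trans htT)) (hw.DS ‹Sup _› fun k s hs => hF k s (hs.trans htT)) (fun s _ _ => hMw s) a3 hα hα1
    (by linarith [ht0.1] : 0 ≤ t0) hA ht0.2.le (by linarith [ht0.1]) le_rfl
  linarith

/-- Forced solutions near `W` are near the datum of `W` on a short time interval. -/
lemma hit2 {c T : ℝ} (hT : 0 < T) {F : Fam} (hF : ∀ k t, t ≤ T → F k t = 0) (hc : 0 < c) {a : Wt} (ha : Sup a)
    {V : K → C3} (hV : SN V) {W : Fam} (hW : SolF c F a V W)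
    (m : E3) {ε b : ℝ} (hε : 0 < ε) (hb : 0 < b) : ∃ T1 τ : ℝ, 0 < T1 ∧ T1 ≤ b ∧ T1 ≤ T ∧ 0 < τ ∧
      ∀ (a' : Wt), Sup a' → ∀ (V' : K → C3) (U : Fam), SolF c F a' V' U → LNd (T1 / 4) (U - W) ≤ ENNReal.ofReal τ →
        ∀ t, T1 / 2 ≤ t → t ≤ T1 → An (U - PH m V) t ≤ ε := by
  have hWd := hW.dom' ha
  have hPd := PH_dom m hV
  have hcf : CF (W - PH m V) := fun k => (hW.cf k).sub (PH_cf m V k)
  have hcont := An_cont hcf (hWd.sub hPd)
  have h0 : An (W - PH m V) 0 = 0 := by
    unfold An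
    have : ∀ k, ‖(W - PH m V) k 0‖ = 0 := fun k => by
      show ‖W k 0 - PH m V k 0‖ = 0
      rw [hW.at_zero, PH_zero, sub_self, norm_zero]
    simp only [this, tsum_zero]
  have h1 : ∀ᶠ t in 𝓝 (0 : ℝ), An (W - PH m V) t < ε / 2 := by
    have := hcont.tendsto 0
    rw [h0] at this
    exact this.eventually (gt_mem_nhds (half_pos hε))
  obtain ⟨r, hr, hr2⟩ := Metric.eventually_nhds_iff.1 h1
  set T1 := min (r / 2) (min b T) with hT1
  have hT10 : 0 < T1 := lt_min (by positivity) (lt_min hb hT)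
  have hT1r : T1 ≤ r / 2 := min_le_left _ _
  have hT1b : T1 ≤ b := (min_le_right _ _).trans (min_le_left _ _)
  have hT1T : T1 ≤ T := (min_le_right _ _).trans (min_le_right _ _)
  obtain ⟨τ, hτ, hlate⟩ := late2F hF hc (dl := T1 / 4) (by positivity) (half_pos hε) ha hW
  refine ⟨T1, τ, hT10, hT1b, hT1T, hτ, fun a' ha' V' U hU hL t ht1 ht2 => ?_⟩
  have hA := hlate a' ha' V' U hU hL t (by linarith) (ht2.trans hT1T)
  have h2 : An (W - PH m V) t < ε / 2 := by
    apply hr2
    rw [Real.dist_eq, sub_zero, abs_of_pos (by linarith)]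
    linarith
  have h3 : An (U - PH m V) t ≤ An (W - PH m V) t + An (U - W) t := by
    have := An_sub_le (u := U - PH m V) (w := W - PH m V) ((hU.dom' ha').sub hPd) (hWd.sub hPd) t
    have e : U - PH m V - (W - PH m V) = U - W := by abel
    rwa [e] at this
  linarith

end Pool.Agent.K1H11.NS
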