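import Pool.Agent.K1H11.NS3.RegF
import Pool.Agent.K1H11.NS2.Conv4

/-!
# Local smooth solutions
-/

open MeasureTheory Set Filter Topology
open scoped ENNReal NNReal ContDiff

namespace Pool.Agent.K1H11.NS

open H459R3.NS (IsSol)

lemma pd_eq_pd (j : Fin 3) (f : E3 → ℝ) (x : E3) : H459R3.NS.pd j f x = Pool.Agent.H356R3.NS.pd j f x := rfl

/-- Forced solutions whose force vanishes up to the time `T` give smooth solutions up to every earlier time. -/
theorem sol_local {ν T : ℝ} {F : Fam} (hCF : CF F) (hF : ∀ k t, t ≤ T → F k t = 0) {a : Wt} (ha : Sup a)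
    {V : K → C3} (hV : ∀ k, dt k (V k) = 0) {u₀ : Fam} (h : SolF (4 * Real.pi ^ 2 * ν) F a V u₀) (m : E3)
    {T1 : ℝ} (hT1 : 0 < T1) (hT : T1 < T) :
    ∃ u : Fam, (∀ k t, 0 ≤ t → t ≤ T1 → u k t = u₀ k t) ∧ Dom u ∧
      IsSol ν T1 (fun t x i => m i + (GS m (cf' u i) t x).re) (fun t x => (GS m (PF u) t x).re) := by
  set c := 4 * Real.pi ^ 2 * ν with hcdef
  have hT0 : 0 ≤ T := hT1.le.trans hT.le
  -- the cutoff
  set r1 := (2 * T1 + T) / 3 with hr1
  set r2 := (T1 + 2 * T) / 3 with hr2
  have e1 : T1 < r1 := by rw [hr1]; linarith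
  have e2 : r1 < r2 := by rw [hr1, hr2]; linarith
  have e3 : r2 < T := by rw [hr2]; linarith
  let f : ContDiffBump (0 : ℝ) := ⟨r1, r2, by linarith, e2⟩
  have hfz : ∀ t, r2 < t → f t = 0 := by
    intro t ht
    apply f.zero_of_le_dist
    rw [Real.dist_eq, sub_zero]
    exact ht.le.trans (le_abs_self t)
  have hf1 : ∀ t, 0 ≤ t → t ≤ r1 → f t = 1 := by
    intro t h0 ht
    apply f.one_of_mem_closedBall
    rw [Metric.mem_closedBall, Real.dist_eq, sub_zero, abs_of_nonneg h0]
    exact ht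
  have hTB : ∀ n, TB n f := fun n => TB_of n f.contDiff f.hasCompactSupport
  set u : Fam := fun k t => (f t : ℝ) • u₀ k t with hu
  have hucf : ∀ i, cf' u i = fun k t => ((f t : ℝ) : ℂ) * u₀ k t i := by
    intro i
    funext k t
    show ((f t : ℝ) • u₀ k t) i = _
    rw [Pi.smul_apply, Complex.real_smul]
  have hTl : ∀ n i, TTl T n (fun k t => u₀ k t i) := fun n i => sol_TTl hCF hF ha h n i
  have hT' : ∀ n i, TT n (cf' u i) := by
    intro n i
    rw [hucf]
    exact cut_TT e3 n (hTl n i) (hTB n) hfz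
  have hP : ∀ n, TT n (PF u) := fun n => TT_PF (hT' n)
  have hdT : ∀ n i, TT n (dU c u i) := fun n i => TT_dU (hT' n) i
  have heq : ∀ k t, 0 ≤ t → t ≤ r1 → u k t = u₀ k t := by
    intro k t h0 ht
    show (f t : ℝ) • u₀ k t = _
    rw [hf1 t h0 ht, one_smul]
  have hsym : ∀ i k t, cf' u i (-k) t = star (cf' u i k t) := by
    intro i k t
    rw [hucf]
    show ((f t : ℝ) : ℂ) * u₀ (-k) t i = star (((f t : ℝ) : ℂ) * u₀ k t i)
    rw [star_mul', show u₀ (-k) t i = star (u₀ k t i) from h.sym t k i]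
    congr 1
    exact (Complex.conj_ofReal _).symm
  have hdiv : ∀ k t, dt k (u k t) = 0 := by
    intro k t
    by_cases ht : t ≤ T
    · have h1 := sol_divF hCF hF hT0 ha hV h k ht
      unfold dt at h1 ⊢
      have : ∀ j, (k j : ℂ) * u k t j = ((f t : ℝ) : ℂ) * ((k j : ℂ) * u₀ k t j) := by
        intro j
        show (k j : ℂ) * ((f t : ℝ) • u₀ k t) j = _
        rw [Pi.smul_apply, Complex.real_smul]; ring
      simp_rw [this]
      rw [← Finset.mul_sum, h1, mul_zero]
    · push Not at ht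
      have h1 : u k t = 0 := by
        show (f t : ℝ) • u₀ k t = 0
        rw [hfz t (e3.trans ht), zero_smul]
      rw [h1]; simp [dt]
  have hre : ∀ i t x, (GS m (cf' u i) t x).im = 0 := fun i t x => SF_real (hsym i) _
  have hdU : ∀ i k t, 0 < t → t < T1 → HasDerivAt (cf' u i k) (dU c u i k t) t := by
    intro i k t h0 ht
    have h1 := sol_derivF hCF hF ha h i k h0 (ht.trans hT)
    have h2 : cf' u i k =ᶠ[𝓝 t] fun t => u₀ k t i := by
      filter_upwards [Ioo_mem_nhds h0 ht] with s hs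
      show u k s i = u₀ k s i
      rw [heq k s hs.1.le (hs.2.le.trans e1.le)]
    refine (h1.congr_of_eventuallyEq h2).congr_deriv ?_
    have h3 : at' u₀ t = at' u t := funext fun k => (heq k t h0.le (ht.le.trans e1.le)).symm
    have h4 : ∀ k i, u₀ k t i = u k t i := fun k i => congrFun (congrFun h3 k) i
    unfold dU cvv
    simp only [h4]
  have hDom : Dom u := by
    obtain ⟨b, hb, hb'⟩ := h.dom' ha
    obtain ⟨C, hC⟩ := (hTB 0).bd
    refine ⟨fun k => C * b k, hb.mul_left _, fun k t => ?_⟩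
    show ‖(f t : ℝ) • u₀ k t‖ ≤ _
    rw [norm_smul, Real.norm_eq_abs]
    exact mul_le_mul (hC t) (hb' k t) (norm_nonneg _) ((abs_nonneg _).trans (hC t))
  refine ⟨u, fun k t h0 ht => heq k t h0 (ht.trans e1.le), hDom, ?_, ?_, ?_, ?_, ?_, ?_⟩
  · rw [contDiffOn_pi]
    intro i
    exact (contDiffOn_const.add (GS_smooth_re m fun n => hT' n i)).mono
      (prod_mono (fun s hs => hs.1) subset_rfl)
  · exact (GS_smooth_re m hP).mono (prod_mono (fun s hs => hs.1) subset_rfl)
  · intro t _ j x
    funext i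
    simp only [GS_periodic]
  · intro t _ j x
    simp only [GS_periodic]
  · intro t ht x
    have e1 : ∀ i, H459R3.NS.pd i (fun y => m i + (GS m (cf' u i) t y).re) x = (GS m (dS i (cf' u i)) t x).re :=
      fun i => pd_GS m (hT' 1 i) ht.1 (m i) i x
    simp only [e1]
    rw [← Complex.re_sum]
    have : ∑ i, GS m (dS i (cf' u i)) t x = 0 := by
      unfold GS
      rw [← SF_sum fun i => ((hT' 0 i).dS i).rd]
      have h0 : (fun k t => ∑ j, dS j (cf' u j) k t) = fun _ _ => (0 : ℂ) := by
        funext k t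
        have := hdiv k t
        unfold dt at this
        unfold dS fj cf'
        calc ∑ j, 2 * Real.pi * Complex.I * (k j : ℂ) * u k t j
            = 2 * Real.pi * Complex.I * ∑ j, (k j : ℂ) * u k t j := by
              rw [Finset.mul_sum]; exact Finset.sum_congr rfl fun j _ => by ring
          _ = 0 := by rw [this, mul_zero]
      rw [h0]
      simp [SF]
    rw [this]; rfl
  · intro t htI x i
    have ht : 0 ≤ t := htI.1.le
    have hd0 : HasDerivAt (fun s => m i + (GS m (cf' u i) s x).re)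
        (GS m (dU (4 * Real.pi ^ 2 * ν) u i) t x
          + ∑ j, GS m (dS j (cf' u i)) t x * (-(m j) : ℝ)).re t := by
      obtain ⟨c', hc1, hc2⟩ := (hT' 1 i).2.2
      have h1 := GS_dt m (hT' 1 i) hc1 hc2 ht x
      have h2 : GS m c' t x = GS m (dU (4 * Real.pi ^ 2 * ν) u i) t x := by
        unfold GS SF
        refine tsum_congr fun k => ?_
        show c' k t * _ = dU (4 * Real.pi ^ 2 * ν) u i k t * _
        rw [(hc1 k t htI.1).unique (hdU i k t htI.1 htI.2)]
      rw [h2] at h1
      have h3 := h1.hasDerivAt (Ici_mem_nhds htI.1)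
      have h4 := (Complex.reCLM.hasFDerivAt.comp_hasDerivAt t h3).const_add (m i)
      exact h4
    have hd := hd0.deriv
    have e1 : ∀ j, H459R3.NS.pd j (fun y => m i + (GS m (cf' u i) t y).re) = fun x => (GS m (dS j (cf' u i)) t x).re :=
      fun j => funext fun x => pd_GS m (hT' 1 i) ht (m i) j x
    have e2 : ∀ j, H459R3.NS.pd j (fun x => (GS m (dS j (cf' u i)) t x).re) x = (GS m (dS j (dS j (cf' u i))) t x).re :=
      fun j => pd_GS' m ((hT' 1 i).dS j) ht j x
    have e3 : H459R3.NS.pd i (fun x => (GS m (PF u) t x).re) x = (GS m (dS i (PF u)) t x).re := pd_GS' m (hP 1) ht i x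
    rw [hd]
    simp only [e1, e2, e3]
    have key : GS m (dU (4 * Real.pi ^ 2 * ν) u i) t x + ∑ j, GS m (cf' u j) t x * GS m (dS j (cf' u i)) t x
        = (ν : ℂ) * ∑ j, GS m (dS j (dS j (cf' u i))) t x + (-1) * GS m (dS i (PF u)) t x := by
      have hU : ∀ i, RD (cf' u i) := fun i => (hT' 0 i).rd
      have hdS : ∀ j, RD (dS j (cf' u i)) := fun j => ((hT' 0 i).dS j).rd
      have hdd : ∀ j, RD (dS j (dS j (cf' u i))) := fun j => (((hT' 0 i).dS j).dS j).rd
      have hdP : RD (dS i (PF u)) := ((hP 0).dS i).rd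
      have hcv : ∀ j, RD (cvv (cf' u j) (dS j (cf' u i))) := fun j => (hU j).conv (hdS j)
      have hsum1 : RD fun k t => ∑ j, cvv (cf' u j) (dS j (cf' u i)) k t :=
        (TT.sum (n := 0) Finset.univ fun j _ => (hT' 0 j).conv ((hT' 0 i).dS j)).rd
      have hsum2 : RD fun k t => ∑ j, dS j (dS j (cf' u i)) k t :=
        (TT.sum (n := 0) Finset.univ fun j _ => ((hT' 0 i).dS j).dS j).rd
      have hone : ∀ (z : ℂ) {c : SFam}, RD c → RD fun k t => z * c k t := fun z c hc =>
        hc.mul (C := ‖z‖) (r := 0) (p := fun _ => z) fun k => by simp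
      unfold GS
      have m1 : ∀ j, SF (cf' u j) (t, x - t • m) * SF (dS j (cf' u i)) (t, x - t • m)
          = SF (cvv (cf' u j) (dS j (cf' u i))) (t, x - t • m) := fun j => SF_mul (hU j) (hdS j) _
      simp only [m1]
      rw [← SF_sum hcv, ← SF_sum hdd, ← SF_const_mul, ← SF_const_mul, ← SF_add (hdT 0 i).rd hsum1,
        ← SF_add (hone _ hsum2) (hone _ hdP)]
      congr 1
      funext k t
      exact fourier_eq hU hdiv i k t
    have keyre := congrArg Complex.re key
    simp only [Complex.add_re, Complex.re_sum, Complex.mul_re, hre, Complex.ofReal_re, Complex.ofReal_im,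
      Complex.neg_re, Complex.one_re, Complex.neg_im, Complex.one_im] at keyre ⊢
    have e4 : ∑ j, (m j + (GS m (cf' u j) t x).re) * (GS m (dS j (cf' u i)) t x).re
        = ∑ j, m j * (GS m (dS j (cf' u i)) t x).re
          + ∑ j, (GS m (cf' u j) t x).re * (GS m (dS j (cf' u i)) t x).re := by
      rw [← Finset.sum_add_distrib]; exact Finset.sum_congr rfl fun j _ => by ring
    have e5 : ∑ j, ((GS m (dS j (cf' u i)) t x).re * -m j - (GS m (dS j (cf' u i)) t x).im * 0)
        = -∑ j, m j * (GS m (dS j (cf' u i)) t x).re := by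
      rw [← Finset.sum_neg_distrib]; exact Finset.sum_congr rfl fun j _ => by ring
    rw [e4, e5]
    simp only [zero_mul, sub_zero, neg_zero] at keyre
    linarith

end Pool.Agent.K1H11.NS
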