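import Pool.Agent.K1H11.NS3.AbsF

/-!
# Local solutions as forced solutions
-/

open MeasureTheory Set Filter Topology
open scoped ENNReal NNReal

namespace Pool.Agent.K1H11.NS

/-- A cutoff in time: `0` for `t ≤ T` and `1` for `t ≥ 2T`. -/
noncomputable def chi (T t : ℝ) : ℝ := max 0 (min 1 (t / T - 1))

lemma chi_cont (T : ℝ) : Continuous (chi T) := by unfold chi; fun_prop

lemma chi_zero {T t : ℝ} (hT : 0 < T) (ht : t ≤ T) : chi T t = 0 := by
  unfold chi
  apply max_eq_left
  refine (min_le_right _ _).trans ?_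
  rw [sub_nonpos, div_le_one hT]; exact ht

lemma chi_one {T t : ℝ} (hT : 0 < T) (ht : 2 * T ≤ t) : chi T t = 1 := by
  unfold chi
  have h : 1 ≤ t / T - 1 := by
    rw [le_sub_iff_add_le, le_div_iff₀ hT]; linarith
  rw [min_eq_left h]; norm_num

lemma chi_nonneg (T t : ℝ) : 0 ≤ chi T t := le_max_left _ _

lemma chi_le_one (T t : ℝ) : chi T t ≤ 1 := max_le zero_le_one (min_le_left _ _)

/-- Every datum has a local solution: a forced solution whose force vanishes for `t ≤ T`. -/
theorem local_solF {c : ℝ} (hc : 0 < c) {V : K → C3} (hVs : Sym V) (hV0 : V 0 = 0) (hV : RR fun k => ‖V k‖) :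
    ∃ (T : ℝ) (F : Fam) (a : Wt) (W : Fam), 0 < T ∧ CF F ∧ (∀ k t, t ≤ T → F k t = 0) ∧ Sup a ∧
      SolF c F a V W := by
  have hC := C0_pos
  set v : K → ℝ := fun k => ‖V k‖ with hv
  have v0 : ∀ k, 0 ≤ v k := fun k => norm_nonneg _
  have vs : Summable v := hV.summ
  set U : Fam := Ex 1 V with hU
  have hUcf : CF U := Ex_cf 1 V
  have hUn : ∀ k t, ‖U k t‖ ≤ v k := fun k t => Ex_norm zero_le_one V k t
  have hUd : Dom U := ⟨v, vs, hUn⟩
  have hUs : SymF U := Ex_sym hVs
  have hU0 : ∀ t, U 0 t = 0 := fun t => by simp [hU, Ex, hV0]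
  have hs1 : Real.sqrt (1 / (2 * 1)) ≤ 1 := by
    rw [Real.sqrt_le_left one_pos.le]; norm_num
  have hUL : ∀ k, LN (fun t => ‖U k t‖ₑ) ≤ ENNReal.ofReal (v k) := by
    intro k
    rw [hU, LN_Ex one_pos]
    apply ENNReal.ofReal_le_ofReal
    exact mul_le_of_le_one_right (v0 k) hs1
  set D := ∑' k, v k + 1 with hD
  have hD0 : 0 < D := by have : 0 ≤ ∑' k, v k := tsum_nonneg v0; positivity
  have hUX : XN U ≤ ENNReal.ofReal D := by
    refine (XN_Ex one_pos vs).trans (ENNReal.ofReal_le_ofReal ?_)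
    have h1 : 0 ≤ ∑' k, v k := tsum_nonneg v0
    have h2 : (∑' k, ‖V k‖) * Real.sqrt (1 / (2 * 1)) ≤ ∑' k, v k := mul_le_of_le_one_right h1 hs1
    linarith
  set G : Fam := Bt U - fun k s => (c * sq k - 1) • Ex 1 V k s with hG
  have hBU : CF (Bt U) := Bt_cont hUcf hUd
  have hGcf : CF G := fun k => (hBU k).sub (smul_cf (Ex_cf 1 V) (fun k => c * sq k - 1) k)
  have hGs : SymF G := by
    intro t
    refine (Bt_sym hUs t).sub ?_
    intro k i
    show ((c * sq (-k) - 1) • Ex 1 V (-k) t) i = star (((c * sq k - 1) • Ex 1 V k t) i)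
    rw [sq_neg]
    exact smul_sym (Ex_sym hVs t) _ k i
  have hG0 : ∀ t, G 0 t = 0 := by
    intro t
    show Bt U 0 t - (c * sq 0 - 1) • Ex 1 V 0 t = 0
    simp [Ex, hV0, Bt, Bf_zero]
  set g : K → ℝ := fun k => C0 * nk k * conv v v k + (c * sq k + 1) * v k with hg
  have g0 : ∀ k, 0 ≤ g k := fun k => by
    have := nk_nonneg k
    have := sq_nonneg' k
    have := conv_nonneg v0 v0 k
    have := v0 k
    simp only [hg]; positivity
  have gr : RR g := by
    have q1 : RR (fun k => C0 * nk k * conv v v k) := by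
      have := ((RR.conv v0 v0 hV hV).nk (conv_nonneg v0 v0)).mul C0
      exact fun m => (this m).congr fun k => by ring
    have q2 : RR fun k => (c * sq k + 1) * v k := by
      have := ((hV.sq v0).mul c).add hV
      exact fun m => (this m).congr fun k => by ring
    exact q1.add q2
  have hGn : ∀ k t, ‖G k t‖ ≤ g k := by
    intro k t
    have h1 : ‖Bt U k t‖ ≤ C0 * nk k * conv v v k := norm_Bf_conv vs vs (fun k => hUn k t) (fun k => hUn k t) k
    have h2 : ‖(c * sq k - 1) • Ex 1 V k t‖ ≤ (c * sq k + 1) * v k := by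
      rw [norm_smul, Real.norm_eq_abs]
      have h3 : |c * sq k - 1| ≤ c * sq k + 1 := by
        refine (abs_sub _ _).trans ?_
        rw [abs_of_nonneg (mul_nonneg hc.le (sq_nonneg' k)), abs_one]
      exact mul_le_mul h3 (hUn k t) (norm_nonneg _) ((abs_nonneg _).trans h3)
    exact (norm_sub_le _ _).trans (add_le_add h1 h2)
  obtain ⟨η, hη, happ⟩ := approxF_gen hc hD0 one_pos
  set Sg := ∑' k, g k with hSg
  have hSg0 : 0 ≤ Sg := tsum_nonneg g0
  set T := η / (2 * (Sg + 1)) with hT
  have hT0 : 0 < T := by positivity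
  have hTS : 2 * T * Sg ≤ η := by
    have : 2 * T * (Sg + 1) = η := by rw [hT]; field_simp
    nlinarith
  set F : Fam := fun k t => chi T t • G k t with hF
  have hFcf : CF F := fun k => (chi_cont T).smul (hGcf k)
  set FE : Fam := fun k t => (1 - chi T t) • G k t with hFE
  have hFEcf : CF FE := fun k => (continuous_const.sub (chi_cont T)).smul (hGcf k)
  have hsum : F + FE = G := by
    funext k t
    show chi T t • G k t + (1 - chi T t) • G k t = G k t
    rw [← add_smul]; simp
  obtain ⟨a, ha, W, hW, -⟩ := happ F hFcf V U FE v (fun k => 2 * T * g k) hUcf hUs hU0 v0 hV hUn hUL hUX hFEcf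
    (fun t k i => smul_sym (hGs t) _ k i) (fun t => by
      show (1 - chi T t) • G 0 t = 0
      rw [hG0, smul_zero]) (fun k => mul_nonneg (by positivity) (g0 k)) (gr.mul _)
    (fun k => by
      have h1 : ∀ t ∈ Ioi (0 : ℝ), ‖FE k t‖ₑ ≤ (Ioc 0 (2 * T)).indicator (fun _ => ENNReal.ofReal (g k)) t := by
        intro t ht
        by_cases h2 : t ≤ 2 * T
        · rw [indicator_of_mem (show t ∈ Ioc 0 (2 * T) from ⟨ht, h2⟩)]
          show ‖(1 - chi T t) • G k t‖ₑ ≤ _
          rw [enorm_smul, ← ofReal_norm (G k t), Real.enorm_of_nonneg (by linarith [chi_le_one T t]),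
            ← ENNReal.ofReal_mul (by linarith [chi_le_one T t])]
          apply ENNReal.ofReal_le_ofReal
          have h3 : 1 - chi T t ≤ 1 := by linarith [chi_nonneg T t]
          calc (1 - chi T t) * ‖G k t‖ ≤ 1 * ‖G k t‖ := mul_le_mul_of_nonneg_right h3 (norm_nonneg _)
            _ ≤ _ := by rw [one_mul]; exact hGn k t
        · push Not at h2
          have h3 : FE k t = 0 := by
            show (1 - chi T t) • G k t = 0
            rw [chi_one hT0 h2.le]; simp
          rw [h3]; simp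
      calc ∫⁻ t in Ioi 0, ‖FE k t‖ₑ ≤ ∫⁻ t in Ioi 0, (Ioc 0 (2 * T)).indicator (fun _ => ENNReal.ofReal (g k)) t :=
            setLIntegral_mono' measurableSet_Ioi h1
        _ ≤ ∫⁻ t, (Ioc 0 (2 * T)).indicator (fun _ => ENNReal.ofReal (g k)) t := setLIntegral_le_lintegral _ _
        _ = ENNReal.ofReal (2 * T * g k) := by
            rw [lintegral_indicator measurableSet_Ioc, setLIntegral_const, Real.volume_Ioc, sub_zero,
              ← ENNReal.ofReal_mul (g0 k)]
            congr 1; ring)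
    (by
      have h1 : ∀ k, 2 * T * g k / nk k ≤ 2 * T * g k := by
        intro k
        have h2 : 0 ≤ 2 * T * g k := mul_nonneg (by positivity) (g0 k)
        by_cases hk : k = 0
        · subst hk; rw [nk_zero, div_zero]; exact h2
        · exact div_le_self h2 (one_le_nk hk)
      have s2 : Summable fun k => 2 * T * g k := gr.summ.mul_left _
      have s1 : Summable fun k => 2 * T * g k / nk k := s2.of_nonneg_of_le
        (fun k => div_nonneg (mul_nonneg (by positivity) (g0 k)) (nk_nonneg k)) h1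
      refine (s1.tsum_le_tsum h1 s2).trans ?_
      rw [tsum_mul_left]
      exact hTS)
    (fun k t => by
      have e1 : Bt U - F - FE = fun k s => (c * sq k - 1) • Ex 1 V k s := by
        rw [sub_sub, hsum, hG]; abel
      rw [e1]
      exact Ex_duh c 1 V k t)
  refine ⟨T, F, a, W, hT0, hFcf, fun k t ht => ?_, ha, hW⟩
  show chi T t • G k t = 0
  rw [chi_zero hT0 ht, zero_smul]

end Pool.Agent.K1H11.NS
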