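import Pool.Agent.K1H11.NS3.PhysF
import Pool.Agent.K1H11.NS3.LocalF
import Pool.Agent.K1H11.NS3.HitF
import Pool.Agent.K1H11.NS3.LocF
import Pool.Agent.K1H11.NS2.Fin

/-!
# Steering to arbitrary data in a short time
-/

open MeasureTheory Set Filter Topology
open scoped ENNReal NNReal ContDiff

namespace Pool.Agent.K1H11.NS

open H459R3.NS (cube SP IsSol fr)
open Pool.Agent.H356R3.NS (AdmissiblePeriodic R3 critNorm leiLin)

theorem fin_F : ∃ C : ℝ, 0 < C ∧ ∀ (ν : ℝ), 0 < ν → ∀ (u₀ b₀ : E3 → E3),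
    (∀ i, SP fun x => u₀ x i) → (∀ x, ∑ i, H459R3.NS.pd i (fun y => u₀ y i) x = 0) →
    (∀ i, SP fun x => b₀ x i) → (∀ x, ∑ i, H459R3.NS.pd i (fun y => b₀ y i) x = 0) →
    (∀ i, ∫ x in cube, b₀ x i = ∫ x in cube, u₀ x i) →
    ∀ (η ε ε' : ℝ), 0 < η → η ≤ 1 → 0 < ε → 0 < ε' → ∀ (J K0 : ℕ), 1 ≤ J →
    ∃ (v₀ : E3 → E3),
      (∀ i, SP fun x => v₀ x i) ∧ (∀ x, ∑ i, H459R3.NS.pd i (fun y => v₀ y i) x = 0) ∧
      (∀ i, ∫ x in cube, v₀ x i = ∫ x in cube, u₀ x i) ∧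
      volume {x | x ∈ Icc (0 : E3) 1 ∧ v₀ x ≠ u₀ x} ≤ ENNReal.ofReal η ∧
      leiLin (fun k => Pool.Agent.H356R3.NS.fc v₀ k - Pool.Agent.H356R3.NS.fc u₀ k) ≤
        ENNReal.ofReal (C * ν * Real.sqrt J / η) ∧
      (∀ r : ℝ, 1 ≤ r → critNorm r (fun k => Pool.Agent.H356R3.NS.fc v₀ k - Pool.Agent.H356R3.NS.fc u₀ k) ≤
        ENNReal.ofReal (C * ν * (J : ℝ) ^ (1 / r - 1 / 2) / η)) ∧
      (∀ k : Fin 3 → ℤ, (∀ i, |k i| ≤ K0) →
        ‖Pool.Agent.H356R3.NS.fc v₀ k - Pool.Agent.H356R3.NS.fc u₀ k‖ ≤ ε) ∧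
      ∃ δ T T1 : ℝ, 0 < δ ∧ 0 < T1 ∧ T1 ≤ ε' ∧ T1 < T ∧ ∃ F : Fam, CF F ∧ (∀ k t, t ≤ T → F k t = 0) ∧
        ∀ z₀ : E3 → E3, (∀ i, SP fun x => z₀ x i) →
        (∀ x, ∑ i, H459R3.NS.pd i (fun y => z₀ y i) x = 0) →
        (∀ i, ∫ x in cube, z₀ x i = ∫ x in cube, u₀ x i) →
        leiLin (fun k => Pool.Agent.H356R3.NS.fc z₀ k - Pool.Agent.H356R3.NS.fc v₀ k) ≤ ENNReal.ofReal δ →
        ∃ a : Wt, Sup a ∧ ∃ U : Fam, SolF (4 * Real.pi ^ 2 * ν) F a (FV z₀) U ∧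
          ∀ t, T1 / 2 ≤ t → t ≤ T1 → An (U - PH (fun i => ∫ x in cube, u₀ x i) (FV b₀)) t ≤ ε' := by
  obtain ⟨Cg, hCg, hcut⟩ := exists_cut2
  refine ⟨8 * (225 * (4 * Cg + 1) ^ 2 * 12) * (4 * Real.pi ^ 2), by positivity,
    fun ν hν u₀ b₀ hu hdiv hb hdb hmean η ε ε' h0 h1 hε hε' J K0 hJ => ?_⟩
  have hpi := Real.pi_pos
  have hc : 0 < 4 * Real.pi ^ 2 * ν := by positivity
  have hη : 0 < η / 12 := by positivity
  have hη1 : η / 12 ≤ 1 / 4 := by linarith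
  obtain ⟨g, hg, hA⟩ := hcut (η / 12) hη hη1
  have hg2 : ContDiff ℝ ∞ (fun y => g y ^ 2 - 1) := (hg.smooth.pow 2).sub contDiff_const
  obtain ⟨Q, -, hQ⟩ := gM_norm hg2 (fun y => by rw [hg.per])
  obtain ⟨T, F, a, W, hT, hF, hF0, ha, hW⟩ := local_solF hc (FV_sym b₀) (funext fun i => FV_zero hb i) (FV_rr hb)
  obtain ⟨T1, τ, hT1, hT1b, hT1T, hτ, hhit⟩ := hit2 hT hF0 hc ha (FV_rr hb).summ hW
    (fun i => ∫ x in cube, u₀ x i) hε' (lt_min hε' (half_pos hT))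
  obtain ⟨v₀, δ, hδ, b1, b2, b3, b4, b5, b6, b7, b8⟩ :=
    physF hF hν hu hdiv hb hdb hmean ha hW hη hη1 hg hA hQ hJ (dl := T1 / 4) (τ := τ) (by positivity) hτ
      (R := 2 * K0) (ρ := ε) hε
  have hs : 0 < Real.sqrt (η / 12) := Real.sqrt_pos.2 hη
  have hs2 : Real.sqrt (η / 12) ^ 2 = η / 12 := Real.sq_sqrt hη.le
  have hs1 : Real.sqrt (η / 12) ≤ 1 := by
    rw [Real.sqrt_le_left one_pos.le]; linarith
  have hP : PP (Cg / Real.sqrt (η / 12)) ^ 2 ≤ 225 * (4 * Cg + 1) ^ 2 * 12 / η := by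
    have h2 : PP (Cg / Real.sqrt (η / 12)) ≤ 15 * (4 * Cg + 1) / Real.sqrt (η / 12) := by
      unfold PP
      rw [le_div_iff₀ hs]
      have : 15 * (4 * (Cg / Real.sqrt (η / 12)) + 1) * Real.sqrt (η / 12)
          = 15 * (4 * Cg + Real.sqrt (η / 12)) := by field_simp
      rw [this]
      linarith
    have h3 : 0 ≤ PP (Cg / Real.sqrt (η / 12)) := by unfold PP; positivity
    calc _ ≤ (15 * (4 * Cg + 1) / Real.sqrt (η / 12)) ^ 2 := pow_le_pow_left₀ h3 h2 2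
      _ = 225 * (4 * Cg + 1) ^ 2 * 12 / η := by
          rw [div_pow, hs2]; field_simp; ring
  have hTT : T1 ≤ T / 2 := hT1b.trans (min_le_right _ _)
  refine ⟨v₀, b1, b2, b3, ?_, ?_, ?_, fun k hk => b7 k (nk_le_box hk), δ, T, T1, hδ, hT1,
    hT1b.trans (min_le_left _ _), by linarith, F, hF, hF0, ?_⟩
  · refine b4.trans (ENNReal.ofReal_le_ofReal (le_of_eq (by ring)))
  · refine b5.trans (ENNReal.ofReal_le_ofReal ?_)
    have hJ0 := Real.sqrt_nonneg (J : ℝ)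
    calc 2 * PP (Cg / Real.sqrt (η / 12)) ^ 2 * (4 * Real.pi ^ 2 * ν) * Real.sqrt J
        ≤ 8 * (225 * (4 * Cg + 1) ^ 2 * 12 / η) * (4 * Real.pi ^ 2 * ν) * Real.sqrt J := by
          gcongr; norm_num
      _ = _ := by ring
  · intro r hr
    refine (b6 r hr).trans (ENNReal.ofReal_le_ofReal ?_)
    calc 8 * PP (Cg / Real.sqrt (η / 12)) ^ 2 * (4 * Real.pi ^ 2 * ν) * (J : ℝ) ^ (1 / r - 1 / 2)
        ≤ 8 * (225 * (4 * Cg + 1) ^ 2 * 12 / η) * (4 * Real.pi ^ 2 * ν) * (J : ℝ) ^ (1 / r - 1 / 2) := by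
          gcongr
      _ = _ := by ring
  · intro z₀ hz hdz hmz hle
    obtain ⟨a2, ha2, U2, hU2, hL⟩ := b8 z₀ hz hdz hmz hle
    exact ⟨a2, ha2, U2, hU2, fun t ht1 ht2 => hhit a2 ha2 _ U2 hU2 hL t ht1 ht2⟩

/-- The values of a smooth solution and of the forced Fourier solution with the same datum agree up to the
time at which the force starts. -/
lemma val_eq {ν : ℝ} (hν : 0 < ν) {T : ℝ} {F : Fam} (hF : ∀ k t, t ≤ T → F k t = 0) {a : Wt} (ha : Sup a)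
    {z₀ : E3 → E3} {U : Fam} (hU : SolF (4 * Real.pi ^ 2 * ν) F a (FV z₀) U) {Ts : ℝ} {w : ℝ → E3 → E3}
    {q : ℝ → E3 → ℝ} (hI : IsSol ν Ts w q) (hw0 : w 0 = z₀) {m : E3} (hm : ∀ i, m i = ∫ y in cube, z₀ y i)
    {t : ℝ} (h0 : 0 ≤ t) (htT : t ≤ T) (htTs : t < Ts) (k : K) : U k t = YY m (WH w) t k := by
  have hpi := Real.pi_pos
  have hc : 0 < 4 * Real.pi ^ 2 * ν := by positivity
  have hTs : 0 < Ts := h0.trans_lt htTs
  have hsp0 : ∀ i, SP fun x => z₀ x i := fun i => by have := hI.sp ⟨le_rfl, hTs⟩ i; rwa [hw0] at this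
  have hm' : ∀ i, WH w 0 0 i = (m i : ℂ) := by
    intro i
    unfold WH
    rw [hw0, fr_zero, hm]
  have hcf := YT_cf hI m h0 htTs
  have hdom := YT_dom hI m h0 htTs
  have hDS := YT_DS hI hm' h0 htTs
  have hDU : DS (4 * Real.pi ^ 2 * ν) t U := hU.DS ha fun k s hs => hF k s (hs.trans htT)
  have h00 : ∀ k, U k 0 = YT m w t k 0 := by
    intro k
    rw [hU.at_zero]
    show FV z₀ k = YY m (WH w) (min (max 0 0) t) k
    rw [max_self, min_eq_left h0]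
    unfold YY
    by_cases hk : k = 0
    · subst hk; rw [if_pos rfl]; exact funext fun i => FV_zero hsp0 i
    · rw [if_neg hk, zero_smul]
      have : ex k (0 : E3) = 1 := by simp [ex]
      rw [this, one_smul]
      funext i
      unfold WH
      rw [FV_eq hsp0 hk, hw0]
  have := DS_unique hc hU.cf (hU.dom' ha) hcf hdom hDU hDS h00 h0 le_rfl k
  rw [this]
  show YY m (WH w) (min (max t 0) t) k = _
  rw [clamp_eq h0 le_rfl]

/-- A smooth function is bounded by the sum of its Fourier coefficients. -/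
lemma abs_le_tsum_fr {f : E3 → ℝ} (hf : SP f) (x : E3) : |f x| ≤ ∑' k, ‖fr f k‖ := by
  have h := H459R3.NS.S_fr hf x
  have hs : Summable fun k => ‖fr f k‖ := (H459R3.NS.rap_fr hf).summable.norm
  have e : |f x| = ‖((f x : ℝ) : ℂ)‖ := by rw [Complex.norm_real, Real.norm_eq_abs]
  rw [e, ← h]
  unfold H459R3.NS.S
  have hn : ∀ k, ‖fr f k * H459R3.NS.ee k x‖ = ‖fr f k‖ := fun k => by
    rw [norm_mul, ← ex_eq_ee, norm_ex, mul_one]
  refine (norm_tsum_le_tsum_norm (by simpa only [hn] using hs)).trans (le_of_eq ?_)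
  exact tsum_congr fun k => hn k

end Pool.Agent.K1H11.NS
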