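import Pool.Agent.K1H11.NS3.AbsF
import Pool.Agent.K1H11.NS2.Open

/-!
# Stability of forced solutions in the Lei-Lin norm
-/

open MeasureTheory Set Filter Topology
open scoped ENNReal NNReal

namespace Pool.Agent.K1H11.NS

/-- Small changes of the datum in the Lei-Lin norm. -/
theorem open_solF {F : Fam} (hCF : CF F) {c : ℝ} (hc : 0 < c) {a : Wt} (ha : Sup a) {V : K → C3} {u : Fam} (hu : SolF c F a V u)
    {τ : ℝ} (hτ : 0 < τ) : ∃ δ : ℝ, 0 < δ ∧ ∀ h : K → C3, Sym h → h 0 = 0 → RR (fun k => ‖h k‖) →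
      ∑' k, ‖h k‖ / nk k ≤ δ → ∃ a' : Wt, Sup a' ∧ ∃ u' : Fam, SolF c F a' (V + h) u' ∧
        XN (u' - u) ≤ ENNReal.ofReal τ := by
  have hC := C0_pos
  obtain ⟨bu, bu0, bur, bub, buL⟩ := hu.rap ha
  have hud := hu.dom' ha
  have hXfin : XN u ≠ ⊤ := by
    refine ne_top_of_le_ne_top hu.l2 (LN_mono fun t _ => ?_)
    have hone : ∀ k, om Wt.one k ≤ om a k := fun k => a.one_le k
    exact NW_mono (fun k => Wa_mono hone k) _
  set D := (XN u).toReal + 1 with hD
  have hXr : 0 ≤ (XN u).toReal := ENNReal.toReal_nonneg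
  have hD0 : 0 < D := by positivity
  obtain ⟨η, hη, happ⟩ := approxF hCF (c := c) (D := D) (τ := τ / 2) hc hD0 (half_pos hτ)
  set B := ∑' k, bu k
  have hB0 : 0 ≤ B := tsum_nonneg bu0
  set s := 1 / Real.sqrt (2 * c) with hs
  have hs0 : 0 < s := by positivity
  set δ := min 1 (min (τ / 2) (η / (C0 * (2 * B + 1)))) / s with hδ
  have hδ0 : 0 < δ := div_pos (lt_min one_pos (lt_min (half_pos hτ) (by positivity))) hs0
  refine ⟨δ, hδ0, fun h hsym h0 hr hle => ?_⟩
  set hl : K → ℝ := fun k => ‖h k‖ / nk k * s with hhl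
  have hl0 : ∀ k, 0 ≤ hl k := fun k => mul_nonneg (div_nonneg (norm_nonneg _) (nk_nonneg k)) hs0.le
  have hdn : ∀ k, ‖h k‖ / nk k ≤ ‖h k‖ := fun k => by
    by_cases hk : k = 0
    · subst hk; rw [nk_zero, div_zero]; exact norm_nonneg _
    · exact div_le_self (norm_nonneg _) (one_le_nk hk)
  have hlr : RR hl := (hr.mul s).mono hl0 fun k => by
    simp only [hhl]; rw [mul_comm]; exact mul_le_mul_of_nonneg_left (hdn k) hs0.le
  set H := ∑' k, hl k with hH
  have hH0 : 0 ≤ H := tsum_nonneg hl0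
  have hHle : H ≤ min 1 (min (τ / 2) (η / (C0 * (2 * B + 1)))) := by
    rw [hH, hhl, tsum_mul_right]
    calc _ ≤ δ * s := mul_le_mul_of_nonneg_right hle hs0.le
      _ = _ := by rw [hδ, div_mul_cancel₀ _ hs0.ne']
  have hH1 : H ≤ 1 := hHle.trans (min_le_left _ _)
  have hH2 : H ≤ τ / 2 := hHle.trans ((min_le_right _ _).trans (min_le_left _ _))
  have hH3 : H ≤ η / (C0 * (2 * B + 1)) := hHle.trans ((min_le_right _ _).trans (min_le_right _ _))
  set Ht := Heat c h with hHt
  have Htcf : CF Ht := Heat_cf c h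
  have Htsym : SymF Ht := Heat_sym hsym
  have HtL : ∀ k, LN (fun t => ‖Ht k t‖ₑ) ≤ ENNReal.ofReal (hl k) := LN_Heat hc h0
  have Htd : Dom Ht := ⟨fun k => ‖h k‖, hr.summ, fun k t => Heat_norm hc h k t⟩
  have Ht0 : ∀ t, Ht 0 t = 0 := fun t => by simp [hHt, Heat, h0]
  have HtX : XN Ht ≤ ENNReal.ofReal H := by
    unfold XN
    have h1 : ∀ t, NW (Wa Wt.one) (at' Ht t) = ∑' k, ‖Ht k t‖ₑ := fun t => NW_Wa_zero _
    simp_rw [h1]
    refine (LN_tsum fun k => (Htcf k).enorm.measurable).trans ?_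
    rw [hH, ENNReal.ofReal_tsum_of_nonneg hl0 hlr.summ]
    exact ENNReal.tsum_le_tsum HtL
  set U := u + Ht with hU
  have Ucf : CF U := fun k => (hu.cf k).add (Htcf k)
  have Ud : Dom U := hud.add Htd
  set FE : Fam := Bt U - Bt u with hFE
  have BU := Bt_cont Ucf Ud
  have Bu := Bt_cont hu.cf hud
  have UL : ∀ k, LN (fun t => ‖U k t‖ₑ) ≤ ENNReal.ofReal (bu k + hl k) := by
    intro k
    rw [ENNReal.ofReal_add (bu0 k) (hl0 k)]
    refine (LN_mono fun t _ => enorm_add_le (u k t) (Ht k t)).trans ?_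
    exact (LN_add_le (hu.cf k).enorm.measurable (Htcf k).enorm.measurable).trans (add_le_add (buL k) (HtL k))
  set e : K → ℝ := fun k => C0 * nk k * conv hl (fun k => bu k + hl k) k + C0 * nk k * conv bu hl k with he
  have bh0 : ∀ k, 0 ≤ bu k + hl k := fun k => add_nonneg (bu0 k) (hl0 k)
  have bhr : RR fun k => bu k + hl k := bur.add hlr
  have q : ∀ {x y : K → ℝ}, (∀ k, 0 ≤ x k) → (∀ k, 0 ≤ y k) → RR x → RR y →
      RR (fun k => C0 * nk k * conv x y k) := by
    intro x y hx hy rx ry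
    have := ((RR.conv hx hy rx ry).nk (conv_nonneg hx hy)).mul C0
    exact fun m => (this m).congr fun k => by ring
  have e0 : ∀ k, 0 ≤ e k := fun k => by
    have c1 := conv_nonneg hl0 bh0 k
    have c2 := conv_nonneg bu0 hl0 k
    have := nk_nonneg k
    simp only [he]; positivity
  have er : RR e := (q hl0 bh0 hlr bhr).add (q bu0 hl0 bur hlr)
  have eL : ∀ k, ∫⁻ t in Ioi 0, ‖FE k t‖ₑ ≤ ENNReal.ofReal (e k) := by
    intro k
    have c1 := conv_nonneg hl0 bh0 k
    have c2 := conv_nonneg bu0 hl0 k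
    have hn := nk_nonneg k
    have e1 : ∀ t, FE k t = Bf (at' Ht t) (at' U t) k + Bf (at' u t) (at' Ht t) k := by
      intro t
      have := congrFun (Bf_diff (Ud.sn t) (hud.sn t)) k
      have e2 : at' U t - at' u t = at' Ht t := by
        funext l; show u l t + Ht l t - u l t = Ht l t; abel
      rw [e2] at this
      exact this
    have m1 : Measurable fun t => ‖Bf (at' Ht t) (at' U t) k‖ₑ := (BB_cont Htcf Ucf Htd Ud k).enorm.measurable
    calc ∫⁻ t in Ioi 0, ‖FE k t‖ₑ ≤ ∫⁻ t in Ioi 0, (‖Bf (at' Ht t) (at' U t) k‖ₑ + ‖Bf (at' u t) (at' Ht t) k‖ₑ) := by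
          refine lintegral_mono fun t => ?_
          show ‖FE k t‖ₑ ≤ _
          rw [e1 t]
          exact enorm_add_le _ _
      _ = (∫⁻ t in Ioi 0, ‖Bf (at' Ht t) (at' U t) k‖ₑ) + ∫⁻ t in Ioi 0, ‖Bf (at' u t) (at' Ht t) k‖ₑ :=
          lintegral_add_left m1 _
      _ ≤ ENNReal.ofReal (C0 * nk k * conv hl (fun k => bu k + hl k) k) + ENNReal.ofReal (C0 * nk k * conv bu hl k) :=
          add_le_add (lint_Bf Htcf Ucf hl0 bh0 hlr.summ bhr.summ HtL UL k)
            (lint_Bf hu.cf Htcf bu0 hl0 bur.summ hlr.summ buL HtL k)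
      _ = _ := by rw [← ENNReal.ofReal_add (by positivity) (by positivity)]
  have esum : ∑' k, e k / nk k ≤ η := by
    obtain ⟨s1, t1⟩ := summable_conv hl0 bh0 hlr.summ bhr.summ
    obtain ⟨s2, t2⟩ := summable_conv bu0 hl0 bur.summ hlr.summ
    have hle' : ∀ k, e k / nk k ≤ C0 * (conv hl (fun k => bu k + hl k) k + conv bu hl k) := by
      intro k
      have c1 := conv_nonneg hl0 bh0 k
      have c2 := conv_nonneg bu0 hl0 k
      have e3 : e k / nk k = nk k * (C0 * (conv hl (fun k => bu k + hl k) k + conv bu hl k)) / nk k := by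
        simp only [he]; ring
      rw [e3]
      exact div_nk_le (by positivity) k
    have s3 : Summable fun k => C0 * (conv hl (fun k => bu k + hl k) k + conv bu hl k) := (s1.add s2).mul_left C0
    have s0 : Summable fun k => e k / nk k := s3.of_nonneg_of_le (fun k => div_nonneg (e0 k) (nk_nonneg k)) hle'
    refine (s0.tsum_le_tsum hle' s3).trans ?_
    rw [tsum_mul_left, s1.tsum_add s2, t1, t2, bur.summ.tsum_add hlr.summ]
    have h1 : C0 * (H * (B + H) + B * H) ≤ C0 * (2 * B + 1) * H := by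
      have : H * H ≤ 1 * H := mul_le_mul_of_nonneg_right hH1 hH0
      nlinarith
    refine h1.trans ?_
    rw [le_div_iff₀ (by positivity)] at hH3
    linarith
  have XU : XN U ≤ ENNReal.ofReal D := by
    refine (XN_add hu.cf Htcf).trans ?_
    rw [hD, ENNReal.ofReal_add hXr zero_le_one, ENNReal.ofReal_toReal hXfin]
    exact add_le_add le_rfl (HtX.trans (ENNReal.ofReal_le_ofReal hH1))
  obtain ⟨a', ha', u', hu', hX'⟩ := happ (V + h) U FE (fun k => bu k + hl k + ‖h k‖) e Ucf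
    (fun t => (hu.sym t).add (Htsym t)) (fun t => by
      show u 0 t + Ht 0 t = 0
      rw [hu.z, Ht0, add_zero])
    (fun k => add_nonneg (bh0 k) (norm_nonneg _)) (bhr.add hr)
    (fun k t => by
      have h1 := bub k t
      have h2 := Heat_norm hc h k t
      have h3 := hl0 k
      have h4 : ‖U k t‖ ≤ ‖u k t‖ + ‖Ht k t‖ := norm_add_le _ _
      show ‖U k t‖ ≤ bu k + hl k + ‖h k‖
      linarith)
    (fun k => (UL k).trans (ENNReal.ofReal_le_ofReal (by
      have := norm_nonneg (h k)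
      linarith))) XU (fun k => (BU k).sub (Bu k)) (fun t => (Bt_sym (fun t => (hu.sym t).add (Htsym t)) t).sub
        (Bt_sym hu.sym t))
    (fun t => by
      show Bt U 0 t - Bt u 0 t = 0
      simp [Bt, Bf_zero]) e0 er eL esum
    (fun k t => by
      have e4 : Bt U - F - FE = Bt u - F := by rw [hFE]; abel
      rw [e4]
      show u k t + Ht k t = _
      rw [hu.eq k t]
      show _ + _ + Real.exp (-(c * sq k * max t 0)) • h k = Real.exp (-(c * sq k * max t 0)) • (V k + h k) + _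
      rw [smul_add]
      abel)
  refine ⟨a', ha', u', hu', ?_⟩
  have e5 : u' - u = (u' - U) + Ht := by rw [hU]; abel
  rw [e5]
  have c1 : CF (u' - U) := fun k => (hu'.cf k).sub (Ucf k)
  refine (XN_add c1 Htcf).trans ((add_le_add hX' (HtX.trans (ENNReal.ofReal_le_ofReal hH2))).trans (le_of_eq ?_))
  rw [← ENNReal.ofReal_add (by positivity) (by positivity)]
  congr 1; ring

end Pool.Agent.K1H11.NS
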