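import Pool.Agent.K1H11.NS3.DescF
import Pool.Agent.K1H11.NS3.OpenF
import Pool.Agent.K1H11.NS2.Phys

/-!
# The physical form of the descent for forced solutions
-/

open MeasureTheory Set Filter Topology
open scoped ENNReal NNReal ContDiff

namespace Pool.Agent.K1H11.NS

open H459R3.NS (ee fr cube S SP Per D Rap)
open Pool.Agent.H356R3.NS (AdmissiblePeriodic R3 shellSum critNorm leiLin)

/-- A field with divergence free Fourier coefficients is divergence free. -/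
lemma div_of_FV {v : E3 → E3} (hv : ∀ i, SP fun x => v x i) (h : ∀ k, dt k (FV v k) = 0) (x : E3) :
    ∑ i, H459R3.NS.pd i (fun y => v y i) x = 0 := by
  set f : E3 → ℝ := fun x => ∑ i ∈ Finset.univ, H459R3.NS.pd i (fun y => v y i) x with hf
  have hSP : SP f := SP.sum fun i _ => (hv i).pd i
  have h1 := H459R3.NS.S_fr hSP x
  have h2 : ∀ k, fr f k = 0 := by
    intro k
    rw [hf, fr_finsum Finset.univ (fun i => H459R3.NS.pd i (fun y => v y i)) (fun i _ => (hv i).pd i)]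
    by_cases hk : k = 0
    · subst hk
      refine Finset.sum_eq_zero fun i _ => ?_
      rw [H459R3.NS.fr_pd (hv i)]
      simp [D]
    · have h3 := h k
      unfold dt at h3
      have h4 : ∑ i, fr (H459R3.NS.pd i (fun y => v y i)) k
          = 2 * Real.pi * Complex.I * ∑ j, (k j : ℂ) * FV v k j := by
        rw [Finset.mul_sum]
        refine Finset.sum_congr rfl fun i _ => ?_
        rw [H459R3.NS.fr_pd (hv i), FV_eq hv hk]
        unfold D
        ring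
      rw [h4, h3, mul_zero]
  have h5 : S (fr f) x = 0 := by
    unfold S
    simp [h2]
  rw [h5] at h1
  exact_mod_cast h1.symm

theorem physF {Fo : Fam} (hCF : CF Fo) {ν : ℝ} (hν : 0 < ν) {u₀ w₀ : E3 → E3} (hu : ∀ i, SP fun x => u₀ x i)
    (hdiv : ∀ x, ∑ i, H459R3.NS.pd i (fun y => u₀ y i) x = 0) (hw : ∀ i, SP fun x => w₀ x i)
    (hdivw : ∀ x, ∑ i, H459R3.NS.pd i (fun y => w₀ y i) x = 0)
    (hm : ∀ i, ∫ x in cube, w₀ x i = ∫ x in cube, u₀ x i) {a : Wt} (ha : Sup a) {W : Fam}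
    (hW : SolF (4 * Real.pi ^ 2 * ν) Fo a (FV w₀) W) {η : ℝ} (h0 : 0 < η) (h1 : η ≤ 1 / 4) {g : ℝ → ℝ}
    (hg : Cut η g) {A Q : ℝ} (hA : ∀ cc M, wn (gM g cc M) ≤ A)
    (hQ : ∀ cc M, wn (gM (fun y => g y ^ 2 - 1) cc M) ≤ Q) {J : ℕ} (hJ : 1 ≤ J) {dl τ : ℝ} (hdl : 0 < dl) (hτ : 0 < τ)
    {R ρ : ℝ} (hρ : 0 < ρ) :
    ∃ (v₀ : E3 → E3) (δ : ℝ), 0 < δ ∧ (∀ i, SP fun x => v₀ x i) ∧
      (∀ x, ∑ i, H459R3.NS.pd i (fun y => v₀ y i) x = 0) ∧
      (∀ i, ∫ x in cube, v₀ x i = ∫ x in cube, u₀ x i) ∧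
      volume {x | x ∈ Icc (0 : E3) 1 ∧ v₀ x ≠ u₀ x} ≤ ENNReal.ofReal (12 * η) ∧
      leiLin (fun k => Pool.Agent.H356R3.NS.fc v₀ k - Pool.Agent.H356R3.NS.fc u₀ k) ≤
        ENNReal.ofReal (2 * PP A ^ 2 * (4 * Real.pi ^ 2 * ν) * Real.sqrt J) ∧
      (∀ r : ℝ, 1 ≤ r → critNorm r (fun k => Pool.Agent.H356R3.NS.fc v₀ k - Pool.Agent.H356R3.NS.fc u₀ k) ≤
        ENNReal.ofReal (8 * PP A ^ 2 * (4 * Real.pi ^ 2 * ν) * (J : ℝ) ^ (1 / r - 1 / 2))) ∧
      (∀ k, nk k ≤ R → ‖Pool.Agent.H356R3.NS.fc v₀ k - Pool.Agent.H356R3.NS.fc u₀ k‖ ≤ ρ) ∧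
      ∀ z₀ : E3 → E3, (∀ i, SP fun x => z₀ x i) → (∀ x, ∑ i, H459R3.NS.pd i (fun y => z₀ y i) x = 0) →
        (∀ i, ∫ x in cube, z₀ x i = ∫ x in cube, u₀ x i) →
        leiLin (fun k => Pool.Agent.H356R3.NS.fc z₀ k - Pool.Agent.H356R3.NS.fc v₀ k) ≤ ENNReal.ofReal δ →
        ∃ a2 : Wt, Sup a2 ∧ ∃ U2 : Fam, SolF (4 * Real.pi ^ 2 * ν) Fo a2 (FV z₀) U2 ∧
          LNd dl (U2 - W) ≤ ENNReal.ofReal τ := by
  set c := 4 * Real.pi ^ 2 * ν with hcdef
  have hpi := Real.pi_pos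
  have hc : 0 < c := by positivity
  have hGS : ∀ i, SP fun x => w₀ x i - u₀ x i := fun i => SP.sub (hw i) (hu i)
  have hGf : ∀ i k, fr (fun x => w₀ x i - u₀ x i) k = fr (fun x => w₀ x i) k - fr (fun x => u₀ x i) k :=
    fun i k => fr_sub (hw i) (hu i) k
  have hV : FV w₀ = FV u₀ + fun k i => fr (fun x => w₀ x i - u₀ x i) k := by
    funext k i
    show FV w₀ k i = FV u₀ k i + fr (fun x => w₀ x i - u₀ x i) k
    rw [hGf]
    by_cases hk : k = 0
    · subst hk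
      rw [FV_zero hw, FV_zero hu, fr_zero, fr_zero, hm]; ring
    · rw [FV_eq hw hk, FV_eq hu hk]; ring
  rw [hV] at hW
  obtain ⟨M, B, hM, hB, hBz, hBl, hBn, hBc, a', ha', U, hU, hUL⟩ := reachF hCF hc hg hA hQ (half_pos hτ)
    hdl hGS
    (fun k => by
      have e1 := fr_div hw hdivw k
      have e2 := fr_div hu hdiv k
      simp_rw [hGf, mul_sub]
      rw [Finset.sum_sub_distrib, e1, e2, sub_zero])
    (fun i => by rw [hGf, fr_zero, fr_zero, hm, sub_self]) ha hW hJ (R := R) hρ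
  set v₀ : E3 → E3 := fun x i => u₀ x i + cu B i x with hv₀
  have hvSP : ∀ i, SP fun x => v₀ x i := fun i => (hu i).add (cu_SP hB i)
  have hfv : ∀ i k, fr (fun x => v₀ x i) k = fr (fun x => u₀ x i) k + cF (fun i => fr (B i)) k i := by
    intro i k
    have := fr_add (hu i) (cu_SP hB i) k
    rw [fr_cu hB] at this
    exact this
  have hmv : ∀ i, ∫ x in cube, v₀ x i = ∫ x in cube, u₀ x i := by
    intro i
    have h1 : ∫ x in cube, cu B i x = 0 := by
      have h2 := fr_cu hB i 0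
      rw [cF_zero, fr_zero, Pi.zero_apply] at h2
      exact_mod_cast h2
    show ∫ x in cube, (u₀ x i + cu B i x) = _
    rw [integral_add, h1, add_zero]
    · exact H459R3.NS.integrableOn_cube (hu i).smooth.continuous
    · exact H459R3.NS.integrableOn_cube (cu_SP hB i).smooth.continuous
  have hVv : FV u₀ + (cF fun i => fr (B i)) = FV v₀ := by
    funext k i
    show FV u₀ k i + cF (fun i => fr (B i)) k i = FV v₀ k i
    by_cases hk : k = 0
    · subst hk; rw [FV_zero hu, FV_zero hvSP, cF_zero]; simp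
    · rw [FV_eq hu hk, FV_eq hvSP hk, hfv]
  have hd : (fun k => Pool.Agent.H356R3.NS.fc v₀ k - Pool.Agent.H356R3.NS.fc u₀ k) = cF fun i => fr (B i) := by
    funext k i
    show Pool.Agent.H356R3.NS.fc v₀ k i - Pool.Agent.H356R3.NS.fc u₀ k i = _
    rw [fc_eq_fr, fc_eq_fr, hfv]; ring
  have hvdt : ∀ k, dt k (FV v₀ k) = 0 := by
    intro k
    have e1 := FV_dt hu hdiv k
    have e2 := cF_div (fun i => fr (B i)) k
    rw [← hVv]
    unfold dt at e1 e2 ⊢
    simp only [Pi.add_apply, mul_add, Finset.sum_add_distrib]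
    rw [e1, e2, add_zero]
  rw [hVv] at hU
  have hvdiv : ∀ x, ∑ i, H459R3.NS.pd i (fun y => v₀ y i) x = 0 := div_of_FV hvSP hvdt
  obtain ⟨δ, hδ, hopen⟩ := open_solF hCF hc ha' hU (half_pos hτ)
  refine ⟨v₀, δ, hδ, hvSP, hvdiv, hmv, ?_, ?_, ?_, ?_, ?_⟩
  · have hsub : {x | x ∈ Icc (0 : E3) 1 ∧ v₀ x ≠ u₀ x}
        ⊆ ⋃ j ∈ (Finset.univ : Finset (Fin 3)), {x : E3 | x ∈ cube ∧ x j ∈ Tb η M} := by
      rintro x ⟨hx, hne⟩
      by_contra hcon
      simp only [Finset.mem_univ, iUnion_true, mem_iUnion, mem_setOf_eq, not_exists, not_and] at hcon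
      apply hne
      have hz : ∀ j, g (M * x j) = 0 := by
        intro j
        apply hg.supp
        intro n
        by_contra hn
        push Not at hn
        exact hcon j hx (mem_Tb h1 hM (hx.1 j) (hx.2 j) hn)
      funext i
      show u₀ x i + cu B i x = u₀ x i
      rw [hBz x hz i, add_zero]
    refine (measure_mono hsub).trans ((measure_biUnion_finset_le _ _).trans ?_)
    calc ∑ j : Fin 3, volume {x : E3 | x ∈ cube ∧ x j ∈ Tb η M} ≤ ∑ _j : Fin 3, ENNReal.ofReal (4 * η) :=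
          Finset.sum_le_sum fun j _ => vol_bad h0 hM j
      _ = ENNReal.ofReal (12 * η) := by
          rw [Finset.sum_const, Finset.card_univ, Fintype.card_fin, nsmul_eq_mul,
            show ((3 : ℕ) : ℝ≥0∞) = ENNReal.ofReal (3 : ℝ) by norm_num, ← ENNReal.ofReal_mul (by norm_num)]
          congr 1; ring
  · rw [hd, leiLin_eq (sn_cF hB)]
    exact ENNReal.ofReal_le_ofReal hBn
  · intro r hr
    rw [hd]
    exact hBc r hr
  · intro k hk
    have := congrFun hd k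
    rw [this]
    exact hBl k hk
  · intro z₀ hz hdz hmz hle
    set h : K → C3 := FV z₀ - FV v₀ with hh
    have hrr : RR fun k => ‖h k‖ := ((FV_rr hz).add (FV_rr hvSP)).mono (fun _ => norm_nonneg _)
      fun k => norm_sub_le _ _
    have hle2 : ∑' k, ‖h k‖ / nk k ≤ δ := by
      have e1 : leiLin (fun k => Pool.Agent.H356R3.NS.fc z₀ k - Pool.Agent.H356R3.NS.fc v₀ k) = leiLin h := by
        refine leiLin_congr fun k hk => ?_
        show _ = FV z₀ k - FV v₀ k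
        rw [FV_eq_fc hz hk, FV_eq_fc hvSP hk]
      rw [e1, leiLin_eq hrr.summ] at hle
      exact (ENNReal.ofReal_le_ofReal_iff hδ.le).1 hle
    obtain ⟨a2, ha2, U2, hU2, hX2⟩ := hopen h ((FV_sym z₀).sub (FV_sym v₀)) (by
      funext i
      show FV z₀ 0 i - FV v₀ 0 i = 0
      rw [FV_zero hz, FV_zero hvSP, sub_zero]) hrr hle2
    have e2 : FV v₀ + h = FV z₀ := by rw [hh]; abel
    rw [e2] at hU2
    refine ⟨a2, ha2, U2, hU2, ?_⟩
    have e3 : U2 - W = (U2 - U) + (U - W) := by abel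
    rw [e3]
    have c1 : CF (U2 - U) := fun k => (hU2.cf k).sub (hU.cf k)
    have c2 : CF (U - W) := fun k => (hU.cf k).sub (hW.cf k)
    refine (LNd_add _ c1 c2).trans ((add_le_add ((LNd_le_XN _ _).trans hX2) hUL).trans (le_of_eq ?_))
    rw [← ENNReal.ofReal_add (by positivity) (by positivity)]
    congr 1; ring

end Pool.Agent.K1H11.NS
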