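import Pool.Agent.K1H11.NS3.UniqF

/-!
# Regularity of local solutions
-/

open MeasureTheory Set Filter Topology
open scoped ENNReal NNReal ContDiff

namespace Pool.Agent.K1H11.NS

/-- `n` times differentiable families on `(0, T)` -/
def TTl (T : ℝ) : ℕ → SFam → Prop
  | 0, c => RD c ∧ ∀ k, Continuous (c k)
  | n + 1, c => RD c ∧ (∀ k, Continuous (c k)) ∧
      ∃ c' : SFam, (∀ k t, 0 < t → t < T → HasDerivAt (c k) (c' k t) t) ∧ TTl T n c'

section
variable {T : ℝ}

lemma TTl.rd : ∀ {n : ℕ} {c : SFam}, TTl T n c → RD c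
  | 0, _, h => h.1
  | _ + 1, _, h => h.1

lemma TTl.ct : ∀ {n : ℕ} {c : SFam}, TTl T n c → ∀ k, Continuous (c k)
  | 0, _, h => h.2
  | _ + 1, _, h => h.2.1

lemma TTl.pred : ∀ {n : ℕ} {c : SFam}, TTl T (n + 1) c → TTl T n c := by
  intro n
  induction n with
  | zero => intro c h; exact ⟨h.1, h.2.1⟩
  | succ n ih =>
    intro c h
    obtain ⟨h1, h2, c', h3, h4⟩ := h
    exact ⟨h1, h2, c', h3, ih h4⟩

lemma TTl.add {n : ℕ} : ∀ {c d : SFam}, TTl T n c → TTl T n d → TTl T n (fun k t => c k t + d k t) := by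
  induction n with
  | zero => intro c d hc hd; exact ⟨hc.1.add hd.1, fun k => (hc.2 k).add (hd.2 k)⟩
  | succ n ih =>
    intro c d hc hd
    obtain ⟨h1, h2, c', h3, h4⟩ := hc
    obtain ⟨g1, g2, d', g3, g4⟩ := hd
    exact ⟨h1.add g1, fun k => (h2 k).add (g2 k), _,
      fun k t ht hT => (h3 k t ht hT).fun_add (g3 k t ht hT), ih h4 g4⟩

lemma TTl.mul {n : ℕ} {p : K → ℂ} {C : ℝ} {r : ℕ} (hp : ∀ k, ‖p k‖ ≤ C * pw k ^ r) :
    ∀ {c : SFam}, TTl T n c → TTl T n (fun k t => p k * c k t) := by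
  induction n with
  | zero => intro c hc; exact ⟨hc.1.mul hp, fun k => continuous_const.mul (hc.2 k)⟩
  | succ n ih =>
    intro c hc
    obtain ⟨h1, h2, c', h3, h4⟩ := hc
    exact ⟨h1.mul hp, fun k => continuous_const.mul (h2 k), _,
      fun k t ht hT => (h3 k t ht hT).const_mul (p k), ih h4⟩

lemma cvv_derivl {c d c' d' : SFam} (hc : RD c) (hd : RD d) (hc' : RD c') (hd' : RD d')
    (h1 : ∀ k t, 0 < t → t < T → HasDerivAt (c k) (c' k t) t)
    (h2 : ∀ k t, 0 < t → t < T → HasDerivAt (d k) (d' k t) t)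
    (k : K) {t : ℝ} (ht : 0 < t) (hT : t < T) :
    HasDerivAt (cvv c d k) (cvv c' d k t + cvv c d' k t) t := by
  obtain ⟨b, hb, h⟩ := hc.summ
  obtain ⟨b', hb', h'⟩ := hd.summ
  obtain ⟨b1, hb1, hh1⟩ := hc'.summ
  obtain ⟨b1', hb1', hh1'⟩ := hd'.summ
  have hb0 : ∀ k, 0 ≤ b k := fun k => (norm_nonneg _).trans (h k 0)
  have hb0' : ∀ k, 0 ≤ b' k := fun k => (norm_nonneg _).trans (h' k 0)
  have hb10 : ∀ k, 0 ≤ b1 k := fun k => (norm_nonneg _).trans (hh1 k 0)
  have hb10' : ∀ k, 0 ≤ b1' k := fun k => (norm_nonneg _).trans (hh1' k 0)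
  have bd : ∀ {x y : SFam} {bx by' : K → ℝ}, Summable bx → Summable by' → (∀ k t, ‖x k t‖ ≤ bx k) →
      (∀ k t, ‖y k t‖ ≤ by' k) → ∀ t l, ‖x l t * y (k - l) t‖ ≤ bx l * ∑' l', by' l' := by
    intro x y bx by' hbx hby hx hy t l
    have p0 : ∀ k, 0 ≤ by' k := fun k => (norm_nonneg _).trans (hy k 0)
    rw [norm_mul]
    exact mul_le_mul (hx l t) ((hy _ t).trans (hby.le_tsum _ fun _ _ => p0 _)) (norm_nonneg _)
      ((norm_nonneg _).trans (hx l t))
  have s1 : ∀ t, Summable fun l => c' l t * d (k - l) t := fun t =>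
    Summable.of_norm_bounded (hb1.mul_right _) fun l => bd hb1 hb' hh1 h' t l
  have s2 : ∀ t, Summable fun l => c l t * d' (k - l) t := fun t =>
    Summable.of_norm_bounded (hb.mul_right _) fun l => bd hb hb1' h hh1' t l
  have s0 : ∀ t, Summable fun l => c l t * d (k - l) t := fun t =>
    Summable.of_norm_bounded (hb.mul_right _) fun l => bd hb hb' h h' t l
  have key := hasDerivAt_tsum_of_isPreconnected (t := Ioo (0 : ℝ) T)
    (u := fun l => b1 l * (∑' l', b' l') + b l * ∑' l', b1' l')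
    (g := fun l t => c l t * d (k - l) t)
    (g' := fun l t => c' l t * d (k - l) t + c l t * d' (k - l) t)
    ((hb1.mul_right _).add (hb.mul_right _)) isOpen_Ioo isPreconnected_Ioo
    (fun l t ht => (h1 l t ht.1 ht.2).mul (h2 (k - l) t ht.1 ht.2))
    (fun l t _ => (norm_add_le _ _).trans (add_le_add (bd hb1 hb' hh1 h' t l) (bd hb hb1' h hh1' t l)))
    (y₀ := t) ⟨ht, hT⟩ (s0 t) ⟨ht, hT⟩
  have e : ∑' l, (c' l t * d (k - l) t + c l t * d' (k - l) t) = cvv c' d k t + cvv c d' k t :=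
    (s1 t).tsum_add (s2 t)
  rw [← e]
  exact key

lemma TTl.conv {n : ℕ} : ∀ {c d : SFam}, TTl T n c → TTl T n d → TTl T n (cvv c d) := by
  induction n with
  | zero => intro c d hc hd; exact ⟨hc.1.conv hd.1, cvv_cont hc.1 hd.1 hc.2 hd.2⟩
  | succ n ih =>
    intro c d hc hd
    have hc0 := hc.pred
    have hd0 := hd.pred
    obtain ⟨h1, h2, c', h3, h4⟩ := hc
    obtain ⟨g1, g2, d', g3, g4⟩ := hd
    exact ⟨h1.conv g1, cvv_cont h1 g1 h2 g2, _,
      fun k t ht hT => cvv_derivl h1 g1 h4.rd g4.rd h3 g3 k ht hT, (ih h4 hd0).add (ih hc0 g4)⟩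

lemma TTl.sum {n : ℕ} {ι : Type*} (s : Finset ι) {f : ι → SFam} (h : ∀ i ∈ s, TTl T n (f i)) :
    TTl T n (fun k t => ∑ i ∈ s, f i k t) := by
  classical
  induction s using Finset.induction_on with
  | empty =>
    have h0 : ∀ n, TTl T n (fun _ _ => 0) := by
      intro n
      induction n with
      | zero => exact ⟨fun m => ⟨fun _ => 0, summable_zero, fun k t => by simp⟩, fun k => continuous_const⟩
      | succ n ih => exact ⟨fun m => ⟨fun _ => 0, summable_zero, fun k t => by simp⟩,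
          fun k => continuous_const, _, fun k t _ _ => hasDerivAt_const _ _, ih⟩
    simpa using h0 n
  | insert i s hi ih =>
    simp only [Finset.sum_insert hi]
    exact (h i (Finset.mem_insert_self _ _)).add (ih fun j hj => h j (Finset.mem_insert_of_mem hj))

/-! ### Fourier side solutions are smooth in time -/

lemma sol_rdF {c : ℝ} {F : Fam} {a : Wt} (ha : Sup a) {V : K → C3} {u : Fam} (h : SolF c F a V u) (i : Fin 3) :
    RD (fun k t => u k t i) := by
  intro m
  obtain ⟨b, hb, hb'⟩ := h.dom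
  obtain ⟨C, hC, hpw⟩ := pw_le_om ha m
  refine ⟨fun k => C * (om a k * b k), hb.mul_left C, fun k t => ?_⟩
  calc pw k ^ m * ‖u k t i‖ ≤ (C * om a k) * b k :=
        mul_le_mul (hpw k) ((norm_le_pi_norm _ i).trans (hb' k t)) (norm_nonneg _)
          (mul_nonneg hC (om_pos _ _).le)
    _ = _ := by ring

lemma sol_derivF {c : ℝ} {F : Fam} (hCF : CF F) (hF : ∀ k t, t ≤ T → F k t = 0) {a : Wt} (ha : Sup a)
    {V : K → C3} {u : Fam} (h : SolF c F a V u) (i : Fin 3) (k : K)
    {t : ℝ} (ht : 0 < t) (hT : t < T) : HasDerivAt (fun t => u k t i) (dU c u i k t) t := by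
  have hud : Dom u := h.dom' ha
  have hBc := Bt_cont h.cf hud
  have hBF : CF (Bt u - F) := fun k => (hBc k).sub (hCF k)
  have h1 : HasDerivAt (fun t => Real.exp (-(c * sq k * max t 0)) • V k)
      ((Real.exp (-(c * sq k * t)) * -(c * sq k)) • V k) t := by
    have h2 : HasDerivAt (fun u => Real.exp (-(c * sq k * u))) (Real.exp (-(c * sq k * t)) * -(c * sq k)) t := by
      have : HasDerivAt (fun u : ℝ => -(c * sq k * u)) (-(c * sq k)) t := by
        simpa using ((hasDerivAt_id' t).const_mul (c * sq k)).fun_neg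
      exact this.exp
    refine (h2.smul_const (V k)).congr_of_eventuallyEq ?_
    filter_upwards [lt_mem_nhds ht] with v hv
    rw [max_eq_left hv.le]
  have h3 := h1.fun_add (Duh_hasDeriv hBF c k ht)
  have h4 : HasDerivAt (u k) (-(c * sq k) • u k t + Bt u k t) t := by
    have e1 : u k = fun t => Real.exp (-(c * sq k * max t 0)) • V k + Duh c (Bt u - F) k t := by
      funext s; exact h.eq k s
    have e0 : (Bt u - F) k t = Bt u k t := by
      show Bt u k t - F k t = _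
      rw [hF k t hT.le, sub_zero]
    have e2 : -(c * sq k) • u k t + Bt u k t = (Real.exp (-(c * sq k * t)) * -(c * sq k)) • V k
        + (-(c * sq k) • Duh c (Bt u - F) k t + (Bt u - F) k t) := by
      rw [h.eq k t, max_eq_left ht.le, smul_add, smul_smul, mul_comm, e0]
      abel
    rw [e2]
    rw [e1]
    exact h3
  have h5 := (hasDerivAt_pi.1 h4) i
  refine h5.congr_deriv ?_
  unfold dU Bt Bf cvv cv at'
  simp only [Pi.add_apply, Pi.smul_apply, Complex.real_smul]
  push_cast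
  ring

lemma sol_TTl {c : ℝ} {F : Fam} (hCF : CF F) (hF : ∀ k t, t ≤ T → F k t = 0) {a : Wt} (ha : Sup a)
    {V : K → C3} {u : Fam} (h : SolF c F a V u) (n : ℕ) :
    ∀ i : Fin 3, TTl T n (fun k t => u k t i) := by
  have hc : ∀ i k, Continuous fun t => u k t i := fun i k => (continuous_apply i).comp (h.cf k)
  induction n with
  | zero => intro i; exact ⟨sol_rdF ha h i, hc i⟩
  | succ n ih =>
    intro i
    refine ⟨sol_rdF ha h i, hc i, dU c u i, fun k t ht hT => sol_derivF hCF hF ha h i k ht hT, ?_⟩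
    unfold dU
    refine TTl.add (TTl.mul (norm_sq_le c) (ih i)) ?_
    refine TTl.sum _ fun j _ => TTl.sum _ fun m _ => ?_
    refine TTl.mul (C := 4 * Real.pi) (r := 1) (fun k => ?_) ((ih j).conv (ih m))
    refine (norm_coef_le k i j m).trans ?_
    rw [pow_one]
    exact mul_le_mul_of_nonneg_left (nk_le_pw k) (by positivity)

lemma sol_divF {c : ℝ} {F : Fam} (hCF : CF F) (hF : ∀ k t, t ≤ T → F k t = 0) (hT0 : 0 ≤ T) {a : Wt} (ha : Sup a)
    {V : K → C3} {u : Fam} (hV : ∀ k, dt k (V k) = 0) (h : SolF c F a V u) (k : K) {t : ℝ} (ht : t ≤ T) :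
    dt k (u k t) = 0 := by
  have hud : Dom u := h.dom' ha
  have hBc := Bt_cont h.cf hud
  have hBF : CF (Bt u - F) := fun k => (hBc k).sub (hCF k)
  let L : C3 →L[ℝ] ℂ := ∑ j, ((k j : ℝ) • (ContinuousLinearMap.proj (R := ℝ) (φ := fun _ : Fin 3 => ℂ) j))
  have hL : ∀ v, L v = dt k v := by
    intro v
    simp [L, dt]
  rw [h.eq k t, ← hL, map_add, map_smul]
  have h1 : L (V k) = 0 := by rw [hL, hV]
  have h2 : L (Duh c (Bt u - F) k t) = 0 := by
    unfold Duh
    rw [← ContinuousLinearMap.intervalIntegral_comp_comm]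
    · have : ∀ s ∈ uIcc 0 (max t 0), L (Real.exp (-(c * sq k * (max t 0 - s))) • (Bt u - F) k s) = 0 := by
        intro s hs
        rw [uIcc_of_le (le_max_right _ _)] at hs
        rw [map_smul, hL]
        have e : (Bt u - F) k s = Bt u k s := by
          show Bt u k s - F k s = _
          rw [hF k s (hs.2.trans (max_le ht hT0)), sub_zero]
        have : dt k (Bt u k s) = 0 := Bf_div _ _ k
        rw [e, this, smul_zero]
      rw [intervalIntegral.integral_congr this]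
      simp
    · have := hBF k
      exact (by fun_prop : Continuous fun s => Real.exp (-(c * sq k * (max t 0 - s))) • (Bt u - F) k s).intervalIntegrable _ _
  rw [h1, h2]; simp

end

/-! ### Cutoff in time -/

/-- `n` times differentiable bounded functions -/
def TB : ℕ → (ℝ → ℝ) → Prop
  | 0, f => Continuous f ∧ ∃ C, ∀ t, |f t| ≤ C
  | n + 1, f => Continuous f ∧ (∃ C, ∀ t, |f t| ≤ C) ∧ ∃ f' : ℝ → ℝ, (∀ t, HasDerivAt f (f' t) t) ∧ TB n f'

lemma TB.ct : ∀ {n : ℕ} {f : ℝ → ℝ}, TB n f → Continuous f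
  | 0, _, h => h.1
  | _ + 1, _, h => h.1

lemma TB.bd : ∀ {n : ℕ} {f : ℝ → ℝ}, TB n f → ∃ C, ∀ t, |f t| ≤ C
  | 0, _, h => h.2
  | _ + 1, _, h => h.2.1

lemma TB.pred : ∀ {n : ℕ} {f : ℝ → ℝ}, TB (n + 1) f → TB n f := by
  intro n
  induction n with
  | zero => intro f h; exact ⟨h.1, h.2.1⟩
  | succ n ih =>
    intro f h
    obtain ⟨h1, h2, f', h3, h4⟩ := h
    exact ⟨h1, h2, f', h3, ih h4⟩

lemma TB_of (n : ℕ) : ∀ {f : ℝ → ℝ}, ContDiff ℝ ∞ f → HasCompactSupport f → TB n f := by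
  have hb : ∀ {f : ℝ → ℝ}, ContDiff ℝ ∞ f → HasCompactSupport f → ∃ C, ∀ t, |f t| ≤ C := by
    intro f hf hs
    obtain ⟨C, hC⟩ := hs.exists_bound_of_continuous hf.continuous
    exact ⟨C, fun t => by simpa [Real.norm_eq_abs] using hC t⟩
  induction n with
  | zero => intro f hf hs; exact ⟨hf.continuous, hb hf hs⟩
  | succ n ih =>
    intro f hf hs
    refine ⟨hf.continuous, hb hf hs, deriv f, fun t => (hf.differentiable (by simp) t).hasDerivAt, ?_⟩
    exact ih (contDiff_infty_iff_deriv.1 hf).2 hs.deriv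

lemma RD.cut {c : SFam} (hc : RD c) {f : ℝ → ℝ} (hf : ∃ C, ∀ t, |f t| ≤ C) :
    RD (fun k t => (f t : ℂ) * c k t) := by
  obtain ⟨C, hC⟩ := hf
  intro m
  obtain ⟨b, hb, h⟩ := hc m
  refine ⟨fun k => C * b k, hb.mul_left _, fun k t => ?_⟩
  rw [norm_mul, Complex.norm_real, Real.norm_eq_abs]
  have hC0 : 0 ≤ C := (abs_nonneg _).trans (hC t)
  calc pw k ^ m * (|f t| * ‖c k t‖) = |f t| * (pw k ^ m * ‖c k t‖) := by ring
    _ ≤ C * b k := mul_le_mul (hC t) (h k t) (mul_nonneg (pow_pos (pw_pos k) m).le (norm_nonneg _)) hC0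

lemma cut_TT {T S : ℝ} (hS : S < T) (n : ℕ) : ∀ {c : SFam} {f : ℝ → ℝ}, TTl T n c → TB n f →
    (∀ t, S < t → f t = 0) → TT n (fun k t => (f t : ℂ) * c k t) := by
  induction n with
  | zero =>
    intro c f hc hf _
    exact ⟨hc.1.cut hf.2, fun k => (Complex.continuous_ofReal.comp hf.1).mul (hc.2 k)⟩
  | succ n ih =>
    intro c f hc hf hz
    have hc0 := hc.pred
    have hf0 := hf.pred
    obtain ⟨h1, h2, c', h3, h4⟩ := hc
    obtain ⟨g1, g2, f', g3, g4⟩ := hf
    have hz' : ∀ t, S < t → f' t = 0 := by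
      intro t ht
      have e1 : f =ᶠ[𝓝 t] fun _ => 0 := by
        filter_upwards [lt_mem_nhds ht] with s hs
        exact hz s hs
      exact ((g3 t).unique ((hasDerivAt_const t (0 : ℝ)).congr_of_eventuallyEq e1))
    refine ⟨h1.cut g2, fun k => (Complex.continuous_ofReal.comp g1).mul (h2 k),
      fun k t => (f' t : ℂ) * c k t + (f t : ℂ) * c' k t, fun k t ht => ?_, (ih hc0 g4 hz').add (ih h4 hf0 hz)⟩
    by_cases htT : t < T
    · exact ((g3 t).ofReal_comp).mul (h3 k t ht htT)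
    · push Not at htT
      have hSt : S < t := hS.trans_le htT
      have e1 : (fun t => (f t : ℂ) * c k t) =ᶠ[𝓝 t] fun _ => 0 := by
        filter_upwards [lt_mem_nhds hSt] with s hs
        rw [hz s hs]; simp
      have e2 := (hasDerivAt_const t (0 : ℂ)).congr_of_eventuallyEq e1
      refine e2.congr_deriv ?_
      show (0 : ℂ) = (f' t : ℂ) * c k t + (f t : ℂ) * c' k t
      rw [hz t hSt, hz' t hSt]; simp

end Pool.Agent.K1H11.NS
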