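import Pool.Agent.K1H11.NS3.ManyF
import Pool.Agent.K1H11.NS2.Stage

/-!
# Changing the initial velocity of a forced solution into another one by fast waves
-/

open MeasureTheory Set Filter Topology
open scoped ENNReal NNReal ContDiff

namespace Pool.Agent.K1H11.NS

open H459R3.NS (ee fc fr cube S SP Per pd D Rap)
open Pool.Agent.H356R3.NS (shellSum critNorm leiLin)

theorem stageF {Fo : Fam} (hCF : CF Fo) {c : ℝ} (hc : 0 < c) {η : ℝ} {g : ℝ → ℝ} (hg : Cut η g) {A Q : ℝ}
    (hA : ∀ cc M, wn (gM g cc M) ≤ A) (hQ : ∀ cc M, wn (gM (fun y => g y ^ 2 - 1) cc M) ≤ Q)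
    {V0 : K → C3} {G : Fin 3 → E3 → ℝ} (hG : ∀ i, SP (G i)) (hdiv : ∀ k, ∑ j, (k j : ℂ) * fr (G j) k = 0)
    (h0 : ∀ i, fr (G i) 0 = 0) {a : Wt} (ha : Sup a) {w : Fam} (hw : SolF c Fo a (V0 + fun k i => fr (G i) k) w)
    {K1 : ℝ} (hK1 : 0 < K1) (hd : ∑' k, ‖(fun i => fr (G i) k : C3)‖ / nk k ≤ K1) {J : ℕ} (hJ : 1 ≤ J)
    {τ dl : ℝ} (hτ : 0 < τ) (hdl : 0 < dl) (R : ℝ) :
    ∃ (M : ℕ) (B : Fin 3 → E3 → ℝ), 1 ≤ M ∧ (∀ i, SP (B i)) ∧
      (∀ x, (∀ cc, g (M * x cc) = 0) → ∀ i, cu B i x = 0) ∧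
      ∑' k, (if nk k ≤ R then ‖cF (fun i => fr (B i)) k‖ / nk k else 0) ≤ (15 * J : ℕ) * τ ∧
      ∑' k, ‖cF (fun i => fr (B i)) k‖ / nk k ≤
        (15 * J : ℕ) * (4 * Real.sqrt (c / J) * Real.sqrt K1 * A + τ) ∧
      (∀ r : ℝ, 1 ≤ r → critNorm r (cF fun i => fr (B i)) ≤
        2 * (((15 * J : ℕ) : ℝ≥0∞) ^ (1 / r) *
          (2 * ENNReal.ofReal (4 * Real.sqrt (c / J) * Real.sqrt K1 * A + τ)) +
          (15 * J : ℕ) * (2 * ENNReal.ofReal τ))) ∧
      ∃ a' : Wt, Sup a' ∧ ∃ u : Fam, SolF c Fo a' (V0 + cF fun i => fr (B i)) u ∧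
        LNd dl (u - w) ≤ ENNReal.ofReal τ := by
  classical
  have hpi := Real.pi_pos
  have hJ1 : (1 : ℝ) ≤ J := by exact_mod_cast hJ
  have hJ0 : (0 : ℝ) < J := by linarith
  have hA0 : 0 ≤ A := (wn_nonneg _).trans (hA 0 0)
  have hQ0 : 0 ≤ Q := (wn_nonneg _).trans (hQ 0 0)
  set β := Real.sqrt (c / J) with hβdef
  have hβ : 0 < β := Real.sqrt_pos.2 (by positivity)
  have hβ2 : β ^ 2 = c / J := Real.sq_sqrt (by positivity)
  set κ := Real.sqrt K1
  have hκ : 0 < κ := Real.sqrt_pos.2 hK1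
  -- the amplitudes
  have hRap : ∀ i, Rap (fun k => -fr (G i) k) := fun i n => by
    simpa using H459R3.NS.rap_fr (hG i) n
  obtain ⟨F, hF, hFw, hFs⟩ := amplitudes (b := fun i k => -fr (G i) k) hRap
    (fun i k => by simp only [fr_neg, star_neg])
    (fun k => by
      simp only [mul_neg, Finset.sum_neg_distrib, hdiv k, neg_zero])
    (fun i => by simp only [h0 i, neg_zero]) hK1 (by
      refine le_trans (le_of_eq (tsum_congr fun k => ?_)) hd
      have e : (fun i => -fr (G i) k : C3) = -(fun i => fr (G i) k : C3) := rfl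
      rw [e, norm_neg])
  set C1 := 4 * β * κ * A with hC1
  have hC10 : 0 ≤ C1 := by positivity
  set n := 15 * J with hn
  have hn0 : 0 < n := by omega
  have hn1 : (0 : ℝ) < n := by exact_mod_cast hn0
  set τ1 := τ / n
  have hτ1 : 0 < τ1 := by positivity
  have sc2 : 0 < Real.sqrt (2 * c) := Real.sqrt_pos.2 (by positivity)
  have hXfin : XN w ≠ ⊤ := by
    refine ne_top_of_le_ne_top hw.l2 (LN_mono fun t _ => ?_)
    have hone : ∀ k, om Wt.one k ≤ om a k := fun k => a.one_le k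
    exact NW_mono (fun k => Wa_mono hone k) _
  set D1 := (XN w).toReal + n * (C1 / Real.sqrt (2 * c) + τ1) + C1 / Real.sqrt (2 * c) + 1 with hD1
  have hXr : 0 ≤ (XN w).toReal := ENNReal.toReal_nonneg
  have hD0 : 0 < D1 := by positivity
  obtain ⟨δ0, hδ0, hmany⟩ := manyF hCF hc hD0 hτ1 hdl
  -- the number of walls
  set T : Fin 3 → Fin 5 → ℝ := fun c a => ∑' l, pw l ^ 2 * ‖fr (fun x => F c a x * F c a x) l‖
  have hT0 : ∀ c a, 0 ≤ T c a := fun c a =>
    tsum_nonneg fun l => mul_nonneg (pow_pos (pw_pos l) 2).le (norm_nonneg _)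
  set TT := ∑ c, ∑ a, T c a
  have hTT : ∀ c a, T c a ≤ TT := fun c a =>
    (Finset.single_le_sum (f := fun a => T c a) (fun a _ => hT0 c a) (Finset.mem_univ a)).trans
      (Finset.single_le_sum (f := fun c => ∑ a, T c a)
        (fun c _ => Finset.sum_nonneg fun a _ => hT0 c a) (Finset.mem_univ c))
  have hTT0 : 0 ≤ TT := Finset.sum_nonneg fun c _ => Finset.sum_nonneg fun a _ => hT0 c a
  obtain ⟨M, hM⟩ := exists_nat_gt (max 1 (12 * Real.pi * Q * TT * β ^ 2 / δ0))
  have hM1 : (1 : ℝ) ≤ M := (le_max_left _ _).trans hM.le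
  have hM1' : 1 ≤ M := by exact_mod_cast hM1
  have hM0 : (0 : ℝ) < M := by linarith
  have hM2 : 12 * Real.pi * Q * TT * β ^ 2 / M ≤ δ0 := by
    have h1 : 12 * Real.pi * Q * TT * β ^ 2 / δ0 ≤ M := (le_max_right _ _).trans hM.le
    rw [div_le_iff₀ hδ0] at h1
    rw [div_le_iff₀ hM0]; linarith
  have hprof := fun c' a' => profile hc hβ.le hg hA hQ (hF c' a') (eP_le c' a') (eP_zero c' a') hM1'
  choose C2 hP2 hb4 hb5 using hprof
  have hC20 : ∀ c a, 0 ≤ C2 c a := fun c a => (hP2 c a).C2n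
  set CC := ∑ c, ∑ a, C2 c a
  have hCC : ∀ c a, C2 c a ≤ CC := fun c a =>
    (Finset.single_le_sum (f := fun a => C2 c a) (fun a _ => hC20 c a) (Finset.mem_univ a)).trans
      (Finset.single_le_sum (f := fun c => ∑ a, C2 c a)
        (fun c _ => Finset.sum_nonneg fun a _ => hC20 c a) (Finset.mem_univ c))
  have hCC0 : 0 ≤ CC := Finset.sum_nonneg fun c _ => Finset.sum_nonneg fun a _ => hC20 c a
  have hC1le : ∀ c' a', 2 * β * (wn (F c' a') * A) ≤ C1 := by
    intro c' a'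
    calc 2 * β * (wn (F c' a') * A) ≤ 2 * β * (2 * κ * A) := by
          have := hFw c' a'
          gcongr
      _ = C1 := by rw [hC1]; ring
  obtain ⟨N0, hN0'⟩ := exists_nat_gt (max (CC / τ) (2 * R))
  have hN0 : CC / τ < N0 := (le_max_left _ _).trans_lt hN0'
  have hN0R : 2 * R < N0 := (le_max_right _ _).trans_lt hN0'
  -- all the waves
  set W : ℕ → ℕ → K → C3 := fun i => Wv β (fr fun x => F (cI i) (aI i) x * gM g (cI i) M x)
    (eP (cI i) (aI i)) (cI i)
  set h : ℕ → K → C3 := fun i => hv c β (fr fun x => F (cI i) (aI i) x * F (cI i) (aI i) x) (eP (cI i) (aI i))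
  have hPrf : ∀ i < n, Prf c C1 CC δ0 (h i) (W i) := by
    intro i _
    refine (hP2 (cI i) (aI i)).mono (hC1le _ _) (hCC _ _) ?_
    refine le_trans ?_ hM2
    have : T (cI i) (aI i) ≤ TT := hTT _ _
    calc 12 * Real.pi / M * Q * T (cI i) (aI i) * β ^ 2 ≤ 12 * Real.pi / M * Q * TT * β ^ 2 := by gcongr
      _ = _ := by ring
  obtain ⟨N, n1, n2, a', ha', u, hu, huL⟩ := hmany a _ w ha hw C1 CC δ0 n (N0 + 1) h W hPrf hC10
    (by rw [hD1]; have : 0 ≤ n * (C1 / Real.sqrt (2 * c) + τ1) := by positivity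
        linarith) le_rfl (by
      rw [← ENNReal.ofReal_toReal hXfin, ← ENNReal.ofReal_add hXr (by positivity)]
      apply ENNReal.ofReal_le_ofReal
      rw [hD1]
      have : 0 ≤ C1 / Real.sqrt (2 * c) := by positivity
      linarith)
  have hNpos : ∀ i < n, 1 ≤ N i := fun i hi => by have := n1 i hi; omega
  have hNτ : ∀ i < n, CC / N i ≤ τ := by
    intro i hi
    have h1 : (N0 : ℝ) ≤ N i := by exact_mod_cast (by have := n1 i hi; omega : N0 ≤ N i)
    have h2 : (0 : ℝ) < N i := by exact_mod_cast hNpos i hi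
    rw [div_le_iff₀ h2]
    rw [div_lt_iff₀ hτ] at hN0
    nlinarith
  set B1 : ℕ → Fin 3 → E3 → ℝ := fun i => wave β (fun x => F (cI i) (aI i) x * gM g (cI i) M x)
    (eP (cI i) (aI i)) (cI i) (N i)
  have hamp : ∀ i, SP fun x => F (cI i) (aI i) x * gM g (cI i) M x := fun i =>
    (hF _ _).mul (gM_SP hg.smooth hg.per _ _)
  have hB1 : ∀ i j, SP (B1 i j) := fun i j => wave_SP (hamp i) _ _ _ j
  have hB1W : ∀ i, cF (fun j => fr (B1 i j)) = W i (N i) := fun i => cF_wave (hamp i) (eP_zero _ _) _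
  set B : Fin 3 → E3 → ℝ := fun j x => ∑ i ∈ Finset.range n, B1 i j x
  have hcFB : cF (fun j => fr (B j)) = ∑ i ∈ Finset.range n, W i (N i) := by
    rw [show (fun j => fr (B j)) = fun j => fr (fun x => ∑ i ∈ Finset.range n, B1 i j x) from rfl,
      cF_sum _ B1 fun i _ j => hB1 i j]
    exact Finset.sum_congr rfl fun i _ => hB1W i
  have hWsn : ∀ i < n, SN (W i (N i)) := fun i hi => ((hPrf i hi).Wr (N i)).summ
  have hW4 : ∀ i < n, ∑' k, ‖W i (N i) k‖ / nk k ≤ C1 + τ := by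
    intro i hi
    refine (hb4 (cI i) (aI i) (N i) (hNpos i hi)).trans (add_le_add (hC1le _ _) ?_)
    refine le_trans ?_ (hNτ i hi)
    exact div_le_div_of_nonneg_right (hCC _ _) (Nat.cast_nonneg _)
  have hW5 : ∀ i < n, ∑' k, (if nk k < (N i : ℝ) / 2 ∨ 2 * (N i : ℝ) ≤ nk k then
      ‖W i (N i) k‖ / nk k else 0) ≤ τ := by
    intro i hi
    refine (hb5 (cI i) (aI i) (N i) (hNpos i hi)).trans ?_
    refine le_trans ?_ (hNτ i hi)
    exact div_le_div_of_nonneg_right (hCC _ _) (Nat.cast_nonneg _)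
  have hsumh : ∑ i ∈ Finset.range n, h i = -fun k i => fr (G i) k := by
    have e1 := sum_index (fun c' a' => hv c β (fr fun x => F c' a' x * F c' a' x) (eP c' a')) J
    rw [show (∑ i ∈ Finset.range n, h i) = _ from e1]
    funext k
    have e2 : (J • ∑ c', ∑ a', hv c β (fr fun x => F c' a' x * F c' a' x) (eP c' a')) k =
        (J : ℝ) • (-(β ^ 2 / c)) • ∑ c', ∑ a', fr (fun x => F c' a' x * F c' a' x) k •
          bt k (ec (eP c' a')) (ec (eP c' a')) := by
      rw [Pi.smul_apply, Finset.sum_apply, ← Nat.cast_smul_eq_nsmul ℝ]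
      congr 1
      rw [Finset.smul_sum]
      refine Finset.sum_congr rfl fun c' _ => ?_
      rw [Finset.sum_apply, Finset.smul_sum]
      rfl
    rw [e2, hFs k, smul_smul]
    have e3 : (J : ℝ) * -(β ^ 2 / c) = -1 := by
      rw [hβ2]; field_simp
    rw [e3]
    funext i
    simp
  have hdata : (V0 + fun k i => fr (G i) k) + ∑ i ∈ Finset.range n, (h i + W i (N i)) =
      V0 + cF (fun i => fr (B i)) := by
    rw [Finset.sum_add_distrib, hsumh, hcFB]
    abel
  rw [hdata] at hu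
  refine ⟨M, B, hM1', fun j => SP.sum fun i _ => hB1 i j, ?_, ?_, ?_, ?_, a', ha', u, hu, ?_⟩
  · intro x hx i
    refine cu_sum_zero _ B1 (fun n _ i => hB1 n i) (fun m _ j i => ?_) i
    have hz := cut_zero hg (hF (cI m) (aI m)) (cI m) M (hx (cI m))
    exact pd_wave_zero (hamp m) _ _ _ hz.1 hz.2 j i
  · rw [hcFB]
    refine low_sum n (fun i => W i (N i)) hWsn N (fun i hi => ?_) hW5
    have h1 : (N0 : ℝ) ≤ N i := by exact_mod_cast (by have := n1 i hi; omega : N0 ≤ N i)
    linarith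
  · rw [hcFB]
    exact leilin_sum n (fun i => W i (N i)) hWsn hW4
  · intro r hr
    rw [hcFB]
    refine crit_bound hr (fun i => W i (N i)) (fun i => {j | (N i : ℝ) / 4 < 2 ^ j ∧ (2 : ℝ) ^ j < 2 * N i})
      ?_ ?_ ?_
    · intro i hi
      have h1 := shells_le (W i (N i)) (fun _ => True) ∅ (fun _ _ _ _ => trivial)
      simp only [Set.mem_empty_iff_false, if_false, if_true] at h1
      refine h1.trans (mul_le_mul' le_rfl ?_)
      rw [← ENNReal.ofReal_tsum_of_nonneg (fun k => div_nonneg (norm_nonneg _) (nk_nonneg k))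
        (summ_div_nk (hWsn i hi))]
      exact ENNReal.ofReal_le_ofReal (hW4 i hi)
    · intro i hi
      have h1 := shells_le (W i (N i)) (fun k => nk k < (N i : ℝ) / 2 ∨ 2 * (N i : ℝ) ≤ nk k)
        {j | (N i : ℝ) / 4 < 2 ^ j ∧ (2 : ℝ) ^ j < 2 * N i} (fun j hj k hk => by
          have a1 := shell_le hk
          have a2 := shell_lt hk
          rw [mem_ofPred_eq, not_and_or, not_lt, not_lt] at hj
          rcases hj with hj | hj
          · left
            rw [pow_succ] at a2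
            linarith
          · right; linarith)
      refine h1.trans (mul_le_mul' le_rfl ?_)
      have h2 : ∀ k, (if nk k < (N i : ℝ) / 2 ∨ 2 * (N i : ℝ) ≤ nk k then
          ENNReal.ofReal (‖W i (N i) k‖ / nk k) else 0) =
          ENNReal.ofReal (if nk k < (N i : ℝ) / 2 ∨ 2 * (N i : ℝ) ≤ nk k then ‖W i (N i) k‖ / nk k else 0) := by
        intro k
        split_ifs <;> simp
      simp_rw [h2]
      rw [← ENNReal.ofReal_tsum_of_nonneg]
      · exact ENNReal.ofReal_le_ofReal (hW5 i hi)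
      · intro k
        split_ifs
        · exact div_nonneg (norm_nonneg _) (nk_nonneg k)
        · exact le_rfl
      · refine (summ_div_nk (hWsn i hi)).of_nonneg_of_le (fun k => ?_) fun k => ?_
        · split_ifs
          · exact div_nonneg (norm_nonneg _) (nk_nonneg k)
          · exact le_rfl
        · split_ifs
          · exact le_rfl
          · exact div_nonneg (norm_nonneg _) (nk_nonneg k)
    · have key : ∀ i i' j, i < i' → i' < n → (2 : ℝ) ^ j < 2 * N i → (N i' : ℝ) / 4 < 2 ^ j → False := by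
        intro i i' j hii hi' h1 h2
        have h3 : (16 : ℝ) * N i ≤ N i' := by exact_mod_cast n2 i i' hii hi'
        have h4 : (1 : ℝ) ≤ N i := by exact_mod_cast hNpos i (by omega)
        linarith
      intro i i' j hi hi' hj hj'
      rw [mem_ofPred_eq] at hj hj'
      rcases lt_trichotomy i i' with hlt | heq | hgt
      · exact absurd (key i i' j hlt hi' hj.2 hj'.1) id
      · exact heq
      · exact absurd (key i' i j hgt hi hj'.2 hj.1) id
  · refine huL.trans (ENNReal.ofReal_le_ofReal (le_of_eq ?_))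
    simp only [τ1]
    field_simp

end Pool.Agent.K1H11.NS
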