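import Pool.Agent.K1H11.NS3.AbsF
import Pool.Agent.K1H11.NS2.Conv4

/-!
# Forced solutions whose force vanishes for small times
-/

open MeasureTheory Set Filter Topology
open scoped ENNReal NNReal

namespace Pool.Agent.K1H11.NS

section
variable {c T : ℝ} {F : Fam} {a : Wt} {V : K → C3} {u : Fam}

lemma SolF.eq' (h : SolF c F a V u) (hF : ∀ k t, t ≤ T → F k t = 0) (k : K) {t : ℝ} (h0 : 0 ≤ t) (ht : t ≤ T) :
    u k t = Real.exp (-(c * sq k * t)) • V k +
      Real.exp (-(c * sq k * t)) • ∫ s in (0 : ℝ)..t, Real.exp (c * sq k * s) • Bt u k s := by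
  have e1 := h.eq k t
  rw [Duh_eq, max_eq_left h0] at e1
  rw [e1]
  congr 2
  refine intervalIntegral.integral_congr fun s hs => ?_
  rw [uIcc_of_le h0] at hs
  show Real.exp (c * sq k * s) • (Bt u k s - F k s) = _
  rw [hF k s (hs.2.trans ht), sub_zero]

lemma SolF.at_zero (h : SolF c F a V u) (k : K) : u k 0 = V k := by
  have e1 := h.eq k 0
  rw [Duh_at_zero] at e1
  simpa using e1

/-- The Duhamel formula between two times before the force starts. -/
lemma SolF.DS (ha : Sup a) (h : SolF c F a V u) (hF : ∀ k t, t ≤ T → F k t = 0) : DS c T u := by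
  intro k t0 t h0 ht hT
  have hBc := Bt_cont h.cf (h.dom' ha)
  have e1 := h.eq' hF k (h0.trans ht) hT
  have e0 := h.eq' hF k h0 (ht.trans hT)
  have hc := cont_inner hBc c k
  have hadd : ∫ s in (0 : ℝ)..t, Real.exp (c * sq k * s) • Bt u k s
      = (∫ s in (0 : ℝ)..t0, Real.exp (c * sq k * s) • Bt u k s)
        + ∫ s in t0..t, Real.exp (c * sq k * s) • Bt u k s :=
    (intervalIntegral.integral_add_adjacent_intervals (hc.intervalIntegrable _ _)
      (hc.intervalIntegrable _ _)).symm
  have e2 : ∫ s in t0..t, Real.exp (-(c * sq k * (t - s))) • Bt u k s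
      = Real.exp (-(c * sq k * t)) • ∫ s in t0..t, Real.exp (c * sq k * s) • Bt u k s := by
    rw [← intervalIntegral.integral_smul]
    refine intervalIntegral.integral_congr fun s _ => ?_
    simp only [smul_smul, ← Real.exp_add]
    congr 2
    ring
  rw [e2, e1, e0, hadd]
  simp only [smul_add, smul_smul, ← Real.exp_add]
  have e3 : -(c * sq k * (t - t0)) + -(c * sq k * t0) = -(c * sq k * t) := by ring
  rw [e3, add_assoc]

end

/-- the constant-in-time family seen from the moving frame -/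
noncomputable def PH (m : E3) (V : K → C3) : Fam := fun k t => ex k (t • m) • V k

lemma PH_cf (m : E3) (V : K → C3) : CF (PH m V) := fun k => by
  unfold PH
  exact ((ex_cont k).comp (continuous_id.smul continuous_const)).smul continuous_const

lemma PH_norm (m : E3) (V : K → C3) (k : K) (t : ℝ) : ‖PH m V k t‖ = ‖V k‖ := by
  unfold PH
  rw [norm_smul, norm_ex, one_mul]

lemma PH_dom (m : E3) {V : K → C3} (hV : SN V) : Dom (PH m V) := ⟨fun k => ‖V k‖, hV, fun k t => (PH_norm m V k t).le⟩

lemma PH_zero (m : E3) (V : K → C3) (k : K) : PH m V k 0 = V k := by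
  unfold PH
  have : ex k ((0 : ℝ) • m) = 1 := by simp [ex]
  rw [this, one_smul]

/-- From closeness in the mean to closeness at one time. -/
lemma exists_time {x : Fam} (hx : CF x) (hd : Dom x) {dl α : ℝ} (hdl : 0 < dl) (hα : 0 < α)
    (hL : LNd dl x ≤ ENNReal.ofReal (α * Real.sqrt dl / 2)) : ∃ t ∈ Ioo dl (2 * dl), An x t ≤ α := by
  by_contra hcon
  push Not at hcon
  have hsd : 0 < Real.sqrt dl := Real.sqrt_pos.2 hdl
  have h1 : ENNReal.ofReal (α * Real.sqrt dl) ≤ LNd dl x := by
    unfold LNd LN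
    have h2 : ENNReal.ofReal (α ^ 2 * dl) ≤
        ∫⁻ t in Ioi 0, ((Ioi dl).indicator (fun t => NW (Wa Wt.one) (at' x t)) t) ^ (2 : ℝ) := by
      calc ENNReal.ofReal (α ^ 2 * dl) = ∫⁻ t in Ioo dl (2 * dl), ENNReal.ofReal (α ^ 2) := by
            rw [setLIntegral_const, Real.volume_Ioo, ← ENNReal.ofReal_mul (by positivity)]
            congr 1; ring
        _ ≤ ∫⁻ t in Ioo dl (2 * dl),
            ((Ioi dl).indicator (fun t => NW (Wa Wt.one) (at' x t)) t) ^ (2 : ℝ) := by
            refine setLIntegral_mono' measurableSet_Ioo fun s hs => ?_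
            rw [indicator_of_mem (show s ∈ Ioi dl from hs.1), NW_Wa_zero]
            show _ ≤ (∑' k, ‖x k s‖ₑ) ^ (2 : ℝ)
            rw [An_eq hd, ENNReal.rpow_two, ← ENNReal.ofReal_pow (An_nonneg _ s)]
            apply ENNReal.ofReal_le_ofReal
            exact pow_le_pow_left₀ hα.le (hcon s hs).le 2
        _ ≤ _ := lintegral_mono_set fun s hs => by
            have := hs.1
            simp only [mem_Ioi]; linarith
    calc ENNReal.ofReal (α * Real.sqrt dl) = (ENNReal.ofReal (α ^ 2 * dl)) ^ (1 / 2 : ℝ) := by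
          rw [ENNReal.ofReal_rpow_of_nonneg (by positivity) (by norm_num), ← Real.sqrt_eq_rpow,
            Real.sqrt_mul (by positivity), Real.sqrt_sq hα.le]
      _ ≤ _ := ENNReal.rpow_le_rpow h2 (by norm_num)
  have h3 := h1.trans hL
  rw [ENNReal.ofReal_le_ofReal_iff (by positivity)] at h3
  have : 0 < α * Real.sqrt dl := by positivity
  linarith

/-- The times at which forced solutions near `W` are near the datum of `W`. -/
lemma hit {c : ℝ} {F : Fam} {a : Wt} (ha : Sup a) {V : K → C3} (hV : SN V) {W : Fam} (hW : SolF c F a V W)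
    (m : E3) {ε b : ℝ} (hε : 0 < ε) (hb : 0 < b) : ∃ dl τ : ℝ, 0 < dl ∧ 2 * dl ≤ b ∧ 0 < τ ∧
      ∀ U : Fam, CF U → Dom U → LNd dl (U - W) ≤ ENNReal.ofReal τ →
        ∃ t ∈ Ioo dl (2 * dl), An (U - PH m V) t ≤ ε := by
  have hWd := hW.dom' ha
  have hPd := PH_dom m hV
  have hcf : CF (W - PH m V) := fun k => (hW.cf k).sub (PH_cf m V k)
  have hcont := An_cont hcf (hWd.sub hPd)
  have h0 : An (W - PH m V) 0 = 0 := by
    unfold An
    have : ∀ k, ‖(W - PH m V) k 0‖ = 0 := fun k => by
      show ‖W k 0 - PH m V k 0‖ = 0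
      rw [hW.at_zero, PH_zero, sub_self, norm_zero]
    simp only [this, tsum_zero]
  have h1 : ∀ᶠ t in 𝓝 (0 : ℝ), An (W - PH m V) t < ε / 2 := by
    have := hcont.tendsto 0
    rw [h0] at this
    exact this.eventually (gt_mem_nhds (half_pos hε))
  obtain ⟨r, hr, hr2⟩ := Metric.eventually_nhds_iff.1 h1
  set dl := min (r / 4) (b / 2) with hdl
  have hdl0 : 0 < dl := lt_min (by positivity) (by positivity)
  have hdlr : dl ≤ r / 4 := min_le_left _ _
  have hdlb : dl ≤ b / 2 := min_le_right _ _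
  have hs : 0 < Real.sqrt dl := Real.sqrt_pos.2 hdl0
  refine ⟨dl, ε / 2 * Real.sqrt dl / 2, hdl0, by linarith, by positivity, fun U hU hUd hL => ?_⟩
  have c1 : CF (U - W) := fun k => (hU k).sub (hW.cf k)
  obtain ⟨t, ht, hA⟩ := exists_time c1 (hUd.sub hWd) hdl0 (half_pos hε) hL
  refine ⟨t, ht, ?_⟩
  have h2 : An (W - PH m V) t < ε / 2 := by
    apply hr2
    rw [Real.dist_eq, sub_zero, abs_of_pos (hdl0.trans ht.1)]
    linarith [ht.2]
  have h3 : An (U - PH m V) t ≤ An (W - PH m V) t + An (U - W) t := by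
    have := An_sub_le (u := U - PH m V) (w := W - PH m V) (hUd.sub hPd) (hWd.sub hPd) t
    have e : U - PH m V - (W - PH m V) = U - W := by abel
    rwa [e] at this
  linarith

end Pool.Agent.K1H11.NS
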