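import Pool.Agent.K1H11.NS3.FinF

/-!
# The zero-one law
-/

open MeasureTheory Set Filter Topology
open scoped ENNReal NNReal ContDiff

namespace Pool.Agent.K1H11.NS

open H459R3.NS (cube SP IsSol fr)
open Pool.Agent.H356R3.NS (AdmissiblePeriodic R3 critNorm leiLin)

lemma SN_fc {v : E3 → E3} (hv : ∀ i, SP fun x => v x i) : SN fun k => Pool.Agent.H356R3.NS.fc v k := by
  have h : ∀ i, RR fun k => ‖fr (fun x => v x i) k‖ := fun i => rr_fr (hv i)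
  have hs : Summable fun k => ‖fr (fun x => v x 0) k‖ + ‖fr (fun x => v x 1) k‖ + ‖fr (fun x => v x 2) k‖ :=
    ((h 0).summ.add (h 1).summ).add (h 2).summ
  refine hs.of_nonneg_of_le (fun _ => norm_nonneg _) fun k => ?_
  have a0 := norm_nonneg (fr (fun x => v x 0) k)
  have a1 := norm_nonneg (fr (fun x => v x 1) k)
  have a2 := norm_nonneg (fr (fun x => v x 2) k)
  rw [pi_norm_le_iff_of_nonneg (by positivity)]
  intro i
  show ‖Pool.Agent.H356R3.NS.fc v k i‖ ≤ _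
  rw [fc_eq_fr]
  fin_cases i
  · show ‖fr (fun x => v x 0) k‖ ≤ _
    linarith
  · show ‖fr (fun x => v x 1) k‖ ≤ _
    linarith
  · show ‖fr (fun x => v x 2) k‖ ≤ _
    linarith

/-- Closeness on the Fourier side in the moving frame gives closeness of the fields. -/
lemma close_phys {ν Ts : ℝ} {w : ℝ → E3 → E3} {q : ℝ → E3 → ℝ} (hI : IsSol ν Ts w q) {m : E3}
    (hm : ∀ i, m i = ∫ y in cube, w 0 y i) {b₀ : E3 → E3} (hb : ∀ i, SP fun x => b₀ x i)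
    (hmb : ∀ i, m i = ∫ y in cube, b₀ y i) {U : Fam} (hU : Dom U) {t ε : ℝ} (h0 : 0 ≤ t) (htTs : t < Ts)
    (hval : ∀ k, U k t = YY m (WH w) t k) (hA : An (U - PH m (FV b₀)) t ≤ ε) :
    leiLin (fun k => Pool.Agent.H356R3.NS.fc (w t) k - Pool.Agent.H356R3.NS.fc b₀ k) ≤ ENNReal.ofReal ε ∧
      ∀ x i, |w t x i - b₀ x i| ≤ ε := by
  have hsp : ∀ i, SP fun x => w t x i := fun i => hI.sp ⟨h0, htTs⟩ i
  have hTs : 0 < Ts := h0.trans_lt htTs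
  have hd : Dom (U - PH m (FV b₀)) := hU.sub (PH_dom m (FV_rr hb).summ)
  have hs : Summable fun k => ‖(U - PH m (FV b₀)) k t‖ := hd.sn t
  have key : ∀ k, k ≠ 0 → ‖WH w t k - FV b₀ k‖ = ‖(U - PH m (FV b₀)) k t‖ := by
    intro k hk
    have e : (U - PH m (FV b₀)) k t = ex k (t • m) • (WH w t k - FV b₀ k) := by
      show U k t - ex k (t • m) • FV b₀ k = _
      rw [hval k]
      unfold YY
      rw [if_neg hk, smul_sub]
    rw [e, norm_smul, norm_ex, one_mul]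
  constructor
  · have hSN : SN fun k => Pool.Agent.H356R3.NS.fc (w t) k - Pool.Agent.H356R3.NS.fc b₀ k :=
      (SN_fc hsp).sub (SN_fc hb)
    rw [leiLin_eq hSN]
    apply ENNReal.ofReal_le_ofReal
    refine le_trans ?_ hA
    unfold An
    refine (summ_div_nk hSN).tsum_le_tsum (fun k => ?_) hs
    by_cases hk : k = 0
    · subst hk; rw [nk_zero, div_zero]; exact norm_nonneg _
    · refine (div_le_self (norm_nonneg _) (one_le_nk hk)).trans (le_of_eq ?_)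
      rw [← key k hk, FV_eq_fc hb hk]
      congr 1
      funext i
      show Pool.Agent.H356R3.NS.fc (w t) k i - _ = WH w t k i - _
      rw [fc_eq_fr]
      rfl
  · intro x i
    have hf : SP fun x => w t x i - b₀ x i := SP.sub (hsp i) (hb i)
    refine (abs_le_tsum_fr hf x).trans (le_trans ?_ hA)
    unfold An
    refine Summable.tsum_le_tsum (fun k => ?_) (H459R3.NS.rap_fr hf).summable.norm hs
    rw [fr_sub (hsp i) (hb i)]
    by_cases hk : k = 0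
    · subst hk
      have e1 : fr (fun x => w t x i) 0 = ((m i : ℝ) : ℂ) := by
        have := WH_mean hI ⟨h0, htTs⟩ i
        unfold WH at this
        rw [this, fr_zero, hm]
      rw [e1, fr_zero, hmb, sub_self, norm_zero]
      exact norm_nonneg _
    · rw [← key k hk]
      refine le_trans (le_of_eq ?_) (norm_le_pi_norm (WH w t k - FV b₀ k) i)
      rw [Pi.sub_apply, FV_eq hb hk]
      rfl

/-- Time shifts of admissible solutions. -/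
lemma adm_shift {ν : ℝ} {v : E3 → E3} {u : ℝ → E3 → E3} {p : ℝ → E3 → ℝ} (h : AdmissiblePeriodic ν v u p)
    {t0 : ℝ} (ht0 : 0 < t0) :
    AdmissiblePeriodic ν (u t0) (fun s => u (t0 + s)) (fun s => p (t0 + s)) := by
  have hA : ContDiff ℝ ∞ fun z : ℝ × E3 => ((t0 + z.1, z.2) : ℝ × E3) :=
    (contDiff_const.add contDiff_fst).prodMk contDiff_snd
  have hmaps : MapsTo (fun z : ℝ × E3 => ((t0 + z.1, z.2) : ℝ × E3)) (Ici 0 ×ˢ univ) (Ici 0 ×ˢ univ) := by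
    intro z hz
    have h1 : (0 : ℝ) ≤ z.1 := hz.1
    exact ⟨show (0 : ℝ) ≤ t0 + z.1 by linarith, mem_univ _⟩
  refine ⟨h.smooth_u.comp hA.contDiffOn hmaps, h.smooth_p.comp hA.contDiffOn hmaps,
    fun t ht x j => h.periodic_u (t0 + t) (by linarith) x j, fun t ht x j => h.periodic_p (t0 + t) (by linarith) x j,
    fun t ht x i => ?_, fun t ht x => h.divFree (t0 + t) (by linarith) x, by simp⟩
  have hpos : 0 < t0 + t := by linarith
  have h1 := h.momentum (t0 + t) hpos.le x i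
  have hdiff : DifferentiableWithinAt ℝ (fun s => u s x i) (Ici 0) (t0 + t) := by
    have h2 : ContDiffOn ℝ ∞ (fun s : ℝ => u s x i) (Ici 0) := by
      have h3 := (contDiffOn_pi.1 h.smooth_u) i
      have h4 : ContDiff ℝ ∞ fun s : ℝ => ((s, x) : ℝ × E3) := contDiff_id.prodMk contDiff_const
      exact h3.comp h4.contDiffOn fun s hs => ⟨hs, mem_univ _⟩
    exact (h2.differentiableOn (by simp)) _ hpos.le
  have h2 : HasDerivAt (fun s => u s x i) (derivWithin (fun s => u s x i) (Ici 0) (t0 + t)) (t0 + t) :=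
    hdiff.hasDerivWithinAt.hasDerivAt (Ici_mem_nhds hpos)
  have h3 : HasDerivAt (fun s => u (t0 + s) x i) (derivWithin (fun s => u s x i) (Ici 0) (t0 + t)) t :=
    h2.comp_const_add t0 t
  have h4 : derivWithin (fun s => u (t0 + s) x i) (Ici 0) t = derivWithin (fun s => u s x i) (Ici 0) (t0 + t) :=
    h3.hasDerivWithinAt.derivWithin (uniqueDiffOn_Ici (0 : ℝ) t ht)
  rw [h4]
  exact h1

/-- The data with admissible solutions form an open set. -/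
lemma good_open {ν : ℝ} (hν : 0 < ν) {v₀ : E3 → E3} {u : ℝ → E3 → E3} {p : ℝ → E3 → ℝ}
    (h : AdmissiblePeriodic ν v₀ u p) : ∃ δ : ℝ, 0 < δ ∧ ∀ z₀ : E3 → E3, (∀ i, SP fun x => z₀ x i) →
      (∀ x, ∑ i, H459R3.NS.pd i (fun y => z₀ y i) x = 0) →
      (∀ i, ∫ x in cube, z₀ x i = ∫ x in cube, v₀ x i) →
      leiLin (fun k => Pool.Agent.H356R3.NS.fc z₀ k - Pool.Agent.H356R3.NS.fc v₀ k) ≤ ENNReal.ofReal δ →
      ∃ (u : ℝ → E3 → E3) (p : ℝ → E3 → ℝ), AdmissiblePeriodic ν z₀ u p := by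
  have hpi := Real.pi_pos
  have hc : 0 < 4 * Real.pi ^ 2 * ν := by positivity
  have hvSP : ∀ i, SP fun x => v₀ x i := by
    intro i
    have := (adm_isSol h 1).sp (t := 0) ⟨le_rfl, one_pos⟩ i
    rwa [h.initial] at this
  obtain ⟨a, ha, W, hW, -⟩ := conv_sol hν h
  obtain ⟨δ, hδ, hopen⟩ := open_sol hc ha hW one_pos
  refine ⟨δ, hδ, fun z₀ hz hdz hmz hle => ?_⟩
  set g : K → C3 := FV z₀ - FV v₀ with hg
  have hrr : RR fun k => ‖g k‖ := ((FV_rr hz).add (FV_rr hvSP)).mono (fun _ => norm_nonneg _)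
    fun k => norm_sub_le _ _
  have hle2 : ∑' k, ‖g k‖ / nk k ≤ δ := by
    have e1 : leiLin (fun k => Pool.Agent.H356R3.NS.fc z₀ k - Pool.Agent.H356R3.NS.fc v₀ k) = leiLin g := by
      refine leiLin_congr fun k hk => ?_
      show _ = FV z₀ k - FV v₀ k
      rw [FV_eq_fc hz hk, FV_eq_fc hvSP hk]
    rw [e1, leiLin_eq hrr.summ] at hle
    exact (ENNReal.ofReal_le_ofReal_iff hδ.le).1 hle
  obtain ⟨a2, ha2, U2, hU2, -⟩ := hopen g ((FV_sym z₀).sub (FV_sym v₀)) (by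
    funext i
    show FV z₀ 0 i - FV v₀ 0 i = 0
    rw [FV_zero hz, FV_zero hvSP, sub_zero]) hrr hle2
  have e2 : FV v₀ + g = FV z₀ := by rw [hg]; abel
  rw [e2] at hU2
  obtain ⟨p, hp⟩ := adm_of_sol hz hdz (m := fun i => ∫ y in cube, z₀ y i) (fun i => rfl) ha2 hU2
  exact ⟨_, p, hp⟩

/-- Global solutions with data near `v₀` pass near `b₀` at a small positive time. -/
theorem pass_main : ∃ C : ℝ, 0 < C ∧ ∀ (ν : ℝ), 0 < ν → ∀ (u₀ b₀ : E3 → E3),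
    (∀ i, SP fun x => u₀ x i) → (∀ x, ∑ i, H459R3.NS.pd i (fun y => u₀ y i) x = 0) →
    (∀ i, SP fun x => b₀ x i) → (∀ x, ∑ i, H459R3.NS.pd i (fun y => b₀ y i) x = 0) →
    (∀ i, ∫ x in cube, b₀ x i = ∫ x in cube, u₀ x i) →
    ∀ (η ε ε' : ℝ), 0 < η → η ≤ 1 → 0 < ε → 0 < ε' → ∀ (J K0 : ℕ), 1 ≤ J →
    ∃ (v₀ : E3 → E3),
      (∀ i, SP fun x => v₀ x i) ∧ (∀ x, ∑ i, H459R3.NS.pd i (fun y => v₀ y i) x = 0) ∧
      (∀ i, ∫ x in cube, v₀ x i = ∫ x in cube, u₀ x i) ∧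
      volume {x | x ∈ Icc (0 : E3) 1 ∧ v₀ x ≠ u₀ x} ≤ ENNReal.ofReal η ∧
      leiLin (fun k => Pool.Agent.H356R3.NS.fc v₀ k - Pool.Agent.H356R3.NS.fc u₀ k) ≤
        ENNReal.ofReal (C * ν * Real.sqrt J / η) ∧
      (∀ r : ℝ, 1 ≤ r → critNorm r (fun k => Pool.Agent.H356R3.NS.fc v₀ k - Pool.Agent.H356R3.NS.fc u₀ k) ≤
        ENNReal.ofReal (C * ν * (J : ℝ) ^ (1 / r - 1 / 2) / η)) ∧
      (∀ k : Fin 3 → ℤ, (∀ i, |k i| ≤ K0) →
        ‖Pool.Agent.H356R3.NS.fc v₀ k - Pool.Agent.H356R3.NS.fc u₀ k‖ ≤ ε) ∧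
      ∃ δ T : ℝ, 0 < δ ∧ 0 < T ∧ T ≤ ε' ∧
        ∀ z₀ : E3 → E3, (∀ i, SP fun x => z₀ x i) →
        (∀ x, ∑ i, H459R3.NS.pd i (fun y => z₀ y i) x = 0) →
        (∀ i, ∫ x in cube, z₀ x i = ∫ x in cube, u₀ x i) →
        leiLin (fun k => Pool.Agent.H356R3.NS.fc z₀ k - Pool.Agent.H356R3.NS.fc v₀ k) ≤ ENNReal.ofReal δ →
        (∃ (w : ℝ → E3 → E3) (q : ℝ → E3 → ℝ), IsSol ν T w q ∧ w 0 = z₀) ∧
        ∀ (Ts : ℝ) (w : ℝ → E3 → E3) (q : ℝ → E3 → ℝ), IsSol ν Ts w q → w 0 = z₀ →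
          ∀ t, T / 2 ≤ t → t ≤ T → t < Ts →
          leiLin (fun k => Pool.Agent.H356R3.NS.fc (w t) k - Pool.Agent.H356R3.NS.fc b₀ k) ≤ ENNReal.ofReal ε' ∧
          ∀ x i, |w t x i - b₀ x i| ≤ ε' := by
  obtain ⟨C, hC, hmain⟩ := fin_F
  refine ⟨C, hC, fun ν hν u₀ b₀ hu hdu hb hdb hmean η ε ε' h0 h1 hε hε' J K0 hJ => ?_⟩
  obtain ⟨v₀, a1, a2, a3, a4, a5, a6, a7, δ, T, T1, hδ, hT1, hT1b, hT1T, F, hF, hF0, a8⟩ :=
    hmain ν hν u₀ b₀ hu hdu hb hdb hmean η ε ε' h0 h1 hε hε' J K0 hJ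
  refine ⟨v₀, a1, a2, a3, a4, a5, a6, a7, δ, T1, hδ, hT1, hT1b, fun z₀ hz hdz hmz hle => ?_⟩
  obtain ⟨a, ha, U, hU, hclose⟩ := a8 z₀ hz hdz hmz hle
  set m : E3 := fun i => ∫ x in cube, u₀ x i with hm
  constructor
  · obtain ⟨u', h1, -, h2⟩ := sol_local hF hF0 ha (FV_dt hz hdz) hU m hT1 hT1T
    refine ⟨_, _, h2, ?_⟩
    have e : (fun (x : E3) (i : Fin 3) => m i + (GS m (cf' u' i) 0 x).re) = z₀ := by
      rw [← FV_series hz (m := m) (fun i => (hmz i).symm)]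
      funext x i
      have h0' : ∀ k, u' k 0 = FV z₀ k := fun k => by rw [h1 k 0 le_rfl hT1.le, hU.at_zero]
      unfold GS SF
      simp only [zero_smul, sub_zero, cf', h0']
    exact e
  · intro Ts w q hI hw0 t ht1 ht2 htTs
    have ht0 : 0 ≤ t := by linarith
    exact close_phys hI (m := m) (fun i => by rw [hw0]; exact (hmz i).symm) hb (fun i => (hmean i).symm)
      (hU.dom' ha) ht0 htTs
      (val_eq hν hF0 ha hU hI hw0 (m := m) (fun i => (hmz i).symm) ht0 (by linarith) htTs)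
      (hclose t ht1 ht2)

/-- Either balls of good data are dense or balls of bad data are near every datum. -/
theorem zero_one_main : ∃ C : ℝ, 0 < C ∧ ∀ (ν : ℝ), 0 < ν → ∀ b₀ : E3 → E3,
    (∀ i, SP fun x => b₀ x i) → (∀ x, ∑ i, H459R3.NS.pd i (fun y => b₀ y i) x = 0) →
    ∀ ε' : ℝ, 0 < ε' →
    (∀ v₀ : E3 → E3, (∀ i, SP fun x => v₀ x i) → (∀ x, ∑ i, H459R3.NS.pd i (fun y => v₀ y i) x = 0) →
      (∀ i, ∫ x in cube, v₀ x i = ∫ x in cube, b₀ x i) →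
      leiLin (fun k => Pool.Agent.H356R3.NS.fc v₀ k - Pool.Agent.H356R3.NS.fc b₀ k) ≤ ENNReal.ofReal ε' →
      ¬ ∃ (u : ℝ → E3 → E3) (p : ℝ → E3 → ℝ), AdmissiblePeriodic ν v₀ u p) →
    ∀ u₀ : E3 → E3,
    (∀ i, SP fun x => u₀ x i) → (∀ x, ∑ i, H459R3.NS.pd i (fun y => u₀ y i) x = 0) →
    (∀ i, ∫ x in cube, u₀ x i = ∫ x in cube, b₀ x i) →
    ∀ (η ε : ℝ), 0 < η → η ≤ 1 → 0 < ε → ∀ (J K0 : ℕ), 1 ≤ J →
    ∃ (v₀ : E3 → E3),
      (∀ i, SP fun x => v₀ x i) ∧ (∀ x, ∑ i, H459R3.NS.pd i (fun y => v₀ y i) x = 0) ∧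
      (∀ i, ∫ x in cube, v₀ x i = ∫ x in cube, u₀ x i) ∧
      volume {x | x ∈ Icc (0 : E3) 1 ∧ v₀ x ≠ u₀ x} ≤ ENNReal.ofReal η ∧
      leiLin (fun k => Pool.Agent.H356R3.NS.fc v₀ k - Pool.Agent.H356R3.NS.fc u₀ k) ≤
        ENNReal.ofReal (C * ν * Real.sqrt J / η) ∧
      (∀ r : ℝ, 1 ≤ r → critNorm r (fun k => Pool.Agent.H356R3.NS.fc v₀ k - Pool.Agent.H356R3.NS.fc u₀ k) ≤
        ENNReal.ofReal (C * ν * (J : ℝ) ^ (1 / r - 1 / 2) / η)) ∧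
      (∀ k : Fin 3 → ℤ, (∀ i, |k i| ≤ K0) →
        ‖Pool.Agent.H356R3.NS.fc v₀ k - Pool.Agent.H356R3.NS.fc u₀ k‖ ≤ ε) ∧
      ∃ δ : ℝ, 0 < δ ∧ ∀ z₀ : E3 → E3, (∀ i, SP fun x => z₀ x i) →
        (∀ x, ∑ i, H459R3.NS.pd i (fun y => z₀ y i) x = 0) →
        (∀ i, ∫ x in cube, z₀ x i = ∫ x in cube, u₀ x i) →
        leiLin (fun k => Pool.Agent.H356R3.NS.fc z₀ k - Pool.Agent.H356R3.NS.fc v₀ k) ≤ ENNReal.ofReal δ →
        ¬ ∃ (u : ℝ → E3 → E3) (p : ℝ → E3 → ℝ), AdmissiblePeriodic ν z₀ u p := by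
  obtain ⟨C, hC, hmain⟩ := pass_main
  refine ⟨C, hC, fun ν hν b₀ hb hdb ε' hε' hbad u₀ hu hdu hmean η ε h0 h1 hε J K0 hJ => ?_⟩
  obtain ⟨v₀, a1, a2, a3, a4, a5, a6, a7, δ, T, hδ, hT, -, a8⟩ :=
    hmain ν hν u₀ b₀ hu hdu hb hdb (fun i => (hmean i).symm) η ε ε' h0 h1 hε hε' J K0 hJ
  refine ⟨v₀, a1, a2, a3, a4, a5, a6, a7, δ, hδ, fun z₀ hz hdz hmz hle => ?_⟩
  rintro ⟨u, p, hup⟩
  have hI : IsSol ν (T + 1) u p := adm_isSol hup (T + 1)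
  have hTI : T ∈ Ico 0 (T + 1) := ⟨hT.le, by linarith⟩
  obtain ⟨c1, -⟩ := (a8 z₀ hz hdz hmz hle).2 (T + 1) u p hI hup.initial T (by linarith) le_rfl (by linarith)
  refine hbad (u T) (fun i => hI.sp hTI i) (fun x => hup.divFree T hT.le x) (fun i => ?_) c1
    ⟨_, _, adm_shift hup hT⟩
  have h2 := WH_mean hI hTI i
  unfold WH at h2
  rw [fr_zero, fr_zero, hup.initial] at h2
  have h3 : ∫ x in cube, u T x i = ∫ x in cube, z₀ x i := by exact_mod_cast h2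
  rw [h3, hmz, hmean]

end Pool.Agent.K1H11.NS
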